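import Mathlib

/-!
# Connected graphs in which every vertex separates two given vertices are paths
-/

set_option autoImplicit false

namespace Gd16

variable {ι : Type*}

/-- If every vertex lies on every walk from `s` to `t` then the graph is a path from `s` to `t`. -/
theorem chain_of_separating (Γ : SimpleGraph ι) (hc : Γ.Connected) (s t : ι)
    (hsep : ∀ i, i ≠ s → i ≠ t → ∀ p : Γ.Walk s t, i ∈ p.support) :
    ∃ (a : ℕ) (idx : ι → ℕ), idx s = 0 ∧ idx t = a ∧ (∀ i, idx i ≤ a) ∧ Function.Injective idx ∧
      (∀ k ≤ a, ∃ i, idx i = k) ∧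
      (∀ i j, Γ.Adj i j → idx i = idx j + 1 ∨ idx j = idx i + 1) ∧
      (∀ i j, idx j = idx i + 1 → Γ.Adj i j) := by
  classical
  obtain ⟨p, hp⟩ := hc.exists_walk_length_eq_dist s t
  have hall : ∀ i, i ∈ p.support := by
    intro i
    by_cases h1 : i = s
    · subst h1; exact p.start_mem_support
    · by_cases h2 : i = t
      · subst h2; exact p.end_mem_support
      · exact hsep i h1 h2 p
  have hlen : ∀ i, (p.takeUntil i (hall i)).length = Γ.dist s i := by
    intro i
    have h1 := congrArg SimpleGraph.Walk.length (p.take_spec (hall i))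
    rw [SimpleGraph.Walk.length_append] at h1
    have h2 := SimpleGraph.dist_le (p.takeUntil i (hall i))
    have h3 := SimpleGraph.dist_le (p.dropUntil i (hall i))
    have h4 := hc.dist_triangle (u := s) (v := i) (w := t)
    omega
  have hget : ∀ i, p.getVert (Γ.dist s i) = i := by
    intro i
    rw [← hlen i]
    exact p.getVert_length_takeUntil (hall i)
  have hinj : Function.Injective (fun i => Γ.dist s i) := by
    intro i j hij
    have h1 : Γ.dist s i = Γ.dist s j := hij
    rw [← hget i, ← hget j, h1]
  have hle : ∀ i, Γ.dist s i ≤ Γ.dist s t := by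
    intro i
    rw [← hp, ← hlen i]
    exact p.length_takeUntil_le_length (hall i)
  have hsurj : ∀ k ≤ Γ.dist s t, ∃ i, Γ.dist s i = k := by
    intro k hk
    refine ⟨p.getVert k, ?_⟩
    have h1 := SimpleGraph.dist_le (p.take k)
    have h2 := SimpleGraph.dist_le (p.drop k)
    have h3 := hc.dist_triangle (u := s) (v := p.getVert k) (w := t)
    rw [SimpleGraph.Walk.take_length] at h1
    rw [SimpleGraph.Walk.drop_length] at h2
    omega
  refine ⟨Γ.dist s t, fun i => Γ.dist s i, SimpleGraph.dist_self, rfl, hle, hinj, hsurj, ?_, ?_⟩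
  · intro i j hij
    have h1 := hc.dist_triangle (u := s) (v := i) (w := j)
    have h2 := hc.dist_triangle (u := s) (v := j) (w := i)
    have h3 : Γ.dist i j = 1 := SimpleGraph.dist_eq_one_iff_adj.2 hij
    have h4 : Γ.dist j i = 1 := SimpleGraph.dist_eq_one_iff_adj.2 hij.symm
    have h5 : Γ.dist s i ≠ Γ.dist s j := fun h => hij.ne (hinj h)
    show Γ.dist s i = Γ.dist s j + 1 ∨ Γ.dist s j = Γ.dist s i + 1
    omega
  · intro i j hij
    have h0 : Γ.dist s j = Γ.dist s i + 1 := hij
    have h1 : Γ.dist s i < p.length := by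
      rw [hp]; have := hle j; omega
    have h2 := p.adj_getVert_succ h1
    rw [hget i, ← h0, hget j] at h2
    exact h2

end Gd16
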