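import Pool.Agent.Helper310.Contra2.Defs

/-!
# Removable circuits of a weighted graph
-/

set_option autoImplicit false

namespace Gd16

open Contra2

variable {W : Type*} {G : SimpleGraph W}

open Classical in
/-- The weight `w - χ_C`. -/
noncomputable def subWeight (w : Sym2 W → ℕ) (C : G.Subgraph) (e : Sym2 W) : ℕ :=
  if e ∈ C.edgeSet then w e - 1 else w e

/-- The support of a weight: the graph of the edges with positive weight. -/
def supportGraph (G : SimpleGraph W) (w : Sym2 W → ℕ) : SimpleGraph W :=
  G.deleteEdges {e | w e = 0}

/-- The weight `w` of `G` is eulerian: every vertex is on an even number of edges of odd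
weight. -/
def IsEulerian (G : SimpleGraph W) (w : Sym2 W → ℕ) : Prop :=
  ∀ v, Even {u | G.Adj v u ∧ Odd (w s(v, u))}.ncard

/-- The graph `G` is bridgeless: for every edge `uv` the vertices `u`, `v` are joined in
`G - uv`. -/
def IsBridgeless (G : SimpleGraph W) : Prop :=
  ∀ u v, G.Adj u v → (G.deleteEdges {s(u, v)}).Reachable u v

/-- The circuit `C` is removable in `(G, w)`, where `w` has values in `{1, 2}`: `w - χ_C` is
non-negative, and on its support, which is bridgeless, it is an eulerian weight. -/
def IsRemovable (w : Sym2 W → ℕ) (C : G.Subgraph) : Prop :=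
  IsCircuit C ∧ (∀ e ∈ C.edgeSet, 1 ≤ w e) ∧
    IsEulerian (supportGraph G (subWeight w C)) (subWeight w C) ∧
    IsBridgeless (supportGraph G (subWeight w C))

end Gd16
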