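import Pool.Agent.K7.H16.Gd.Struct
import Pool.Agent.K7.H16.Gd.ContraDefs
import Pool.Agent.Helper310.Contra2.Cover

/-!
# Curves in a permutation graph without faithful cover and without removable circuit
-/

set_option autoImplicit false
set_option linter.unusedSectionVars false

namespace Gd16

open Contra2

variable {V W : Type*} [DecidableEq V]

/-- `G` is the cubic graph with vertex set `Bool × V` given by the two circuits `σ`, and the weight
`w` is `1` on the circuits and `2` on the matching. -/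
structure CubSys (σ : Bool → Equiv.Perm V) (G : SimpleGraph W) (w : Sym2 W → ℕ)
    (e : W ≃ Bool × V) : Prop where
  two : ∀ i v, σ i (σ i v) ≠ v
  adj : ∀ a b, G.Adj a b ↔
      ((e a).1 = (e b).1 ∧ (σ (e a).1 (e a).2 = (e b).2 ∨ σ (e a).1 (e b).2 = (e a).2)) ∨
      ((e a).1 ≠ (e b).1 ∧ (e a).2 = (e b).2)
  one : ∀ a b, G.Adj a b → (e a).1 = (e b).1 → w s(a, b) = 1
  twoW : ∀ a b, G.Adj a b → (e a).1 ≠ (e b).1 → w s(a, b) = 2

variable {σ : Bool → Equiv.Perm V} {G : SimpleGraph W} {w : Sym2 W → ℕ}
    {e : W ≃ Bool × V} {x₀ : V} {T : {v // v ≠ x₀} → Tr}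

lemma CubSys.ne (hG : CubSys σ G w e) (i : Bool) (v : V) : σ i v ≠ v := fun h =>
  hG.two i v (by rw [h, h])

/-- Full transitions that do not go straight give a faithful circuit cover. -/
theorem cover_of_not_straight [Finite V] [Finite W] (hG : CubSys σ G w e)
    (hT : Full σ x₀ T) (hst : ¬ Straight σ x₀ T) : HasFaithfulCircuitCover G w := by
  classical
  have : Fintype (Mem σ x₀ T) := Fintype.ofFinite _
  obtain ⟨q, hq⟩ : ∃ q, q = Fintype.card (Mem σ x₀ T) := ⟨_, rfl⟩
  have hq0 : q ≠ 0 := by
    have : Nonempty (Mem σ x₀ T) := ⟨E1 σ x₀ T⟩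
    rw [hq]
    exact Fintype.card_ne_zero
  have : NeZero q := ⟨hq0⟩
  have ι : Mem σ x₀ T ≃ ZMod q := Fintype.equivOfCardEq (by rw [ZMod.card, hq])
  -- both passages at every vertex are on different curves
  have key : ∀ v, mk σ x₀ T (v, true, true) ≠ mk σ x₀ T (v, true, false) := by
    intro v
    by_cases hv : v = x₀
    · subst hv
      intro h
      exact hst h.symm
    · exact hT v hv
  have hpair : ∀ v, (∀ d, mk σ x₀ T (v, false, d) = mk σ x₀ T (v, true, d)) ∨
      (∀ d, mk σ x₀ T (v, false, !d) = mk σ x₀ T (v, true, d)) := by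
    intro v
    by_cases hv : v = x₀
    · subst hv
      obtain ⟨p, hp1, hp2⟩ := pair (σ := σ) (x₀ := v) (T := T) (true, true)
      obtain ⟨p', hp1', hp2'⟩ := pair (σ := σ) (x₀ := v) (T := T) (true, false)
      have h1 := (hp2 p).2 (Or.inr rfl)
      have h1' := (hp2' p').2 (Or.inr rfl)
      have h2 : p ≠ (true, false) := by
        rintro rfl
        exact key v h1.symm
      have h2' : p' ≠ (true, true) := by
        rintro rfl
        exact key v h1'
      have h3 : p ≠ p' := by
        rintro rfl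
        exact key v (h1.symm.trans h1')
      obtain ⟨i, d⟩ := p
      obtain ⟨i', d'⟩ := p'
      have hi : i = false := by
        cases i
        · rfl
        · cases d
          · exact absurd rfl h2
          · exact absurd rfl hp1
      have hi' : i' = false := by
        cases i'
        · rfl
        · cases d'
          · exact absurd rfl hp1'
          · exact absurd rfl h2'
      subst hi hi'
      cases d
      · cases d'
        · exact absurd rfl h3
        · right
          intro d; cases d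
          · exact h1'
          · exact h1
      · cases d'
        · left
          intro d; cases d
          · exact h1'
          · exact h1
        · exact absurd rfl h3
    · exact hT.tau_false hv
  let f : Bool → V → ZMod q := fun i v => ι (mk σ x₀ T (v, i, true))
  have hf : ∀ i v, f i ((σ i).symm v) = ι (mk σ x₀ T (v, i, false)) := by
    intro i v
    simp only [f]
    rw [← mk_eps σ x₀ T (v, i, false), eps_in]
  have hgood : Good σ f := by
    refine ⟨?_, ?_, hG.two⟩
    · intro i v h
      rw [hf] at h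
      have h1 := ι.injective h
      rcases hpair v with h2 | h2
      · cases i
        · rw [h2, h2] at h1
          exact key v h1.symm
        · exact key v h1.symm
      · cases i
        · have h3 := h2 true
          have h4 := h2 false
          simp only [Bool.not_true, Bool.not_false] at h3 h4
          rw [h3, h4] at h1
          exact key v h1
        · exact key v h1.symm
    · intro v
      rw [hf, hf]
      rcases hpair v with h2 | h2
      · left
        simp only [f]
        rw [h2, h2]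
        exact ⟨rfl, rfl⟩
      · right
        have h3 := h2 true
        have h4 := h2 false
        simp only [Bool.not_true, Bool.not_false] at h3 h4
        simp only [f]
        rw [h3, h4]
        exact ⟨rfl, rfl⟩
  exact cover_of_good (P := e) e.bijective hgood w hG.adj hG.one hG.twoW

variable (e) in
/-- Adjacency along the curve `q` in the cubic graph. -/
def DAdj (σ : Bool → Equiv.Perm V) (x₀ : V) (T : {v // v ≠ x₀} → Tr) (q : Mem σ x₀ T)
    (a b : W) : Prop :=
  ((e a).1 = (e b).1 ∧
    ((σ (e a).1 (e a).2 = (e b).2 ∧ mk σ x₀ T ((e a).2, (e a).1, true) = q) ∨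
      (σ (e a).1 (e b).2 = (e a).2 ∧ mk σ x₀ T ((e b).2, (e a).1, true) = q))) ∨
  ((e a).1 ≠ (e b).1 ∧ (e a).2 = (e b).2 ∧ (e a).2 ≠ x₀ ∧ ∃ p, mk σ x₀ T ((e a).2, p) = q)

/-- The curve `q` as a graph on `W`. -/
def Dg (hG : CubSys σ G w e) (q : Mem σ x₀ T) : SimpleGraph W where
  Adj a b := DAdj e σ x₀ T q a b
  symm := ⟨fun a b hab => by
    rcases hab with ⟨h1, h2⟩ | ⟨h1, h2, h3, h4⟩
    · left
      refine ⟨h1.symm, ?_⟩
      rw [← h1]
      exact h2.symm
    · right
      refine ⟨h1.symm, h2.symm, ?_⟩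
      rw [← h2]
      exact ⟨h3, h4⟩⟩
  loopless := ⟨fun a h => by
    rcases h with ⟨-, h2⟩ | ⟨h1, -⟩
    · have : σ (e a).1 (e a).2 = (e a).2 := by tauto
      exact hG.ne _ _ this
    · exact h1 rfl⟩

lemma dg_adj (hG : CubSys σ G w e) (q : Mem σ x₀ T) (a b : W) :
    (Dg hG q).Adj a b ↔ DAdj e σ x₀ T q a b := Iff.rfl

lemma dg_le (hG : CubSys σ G w e) (q : Mem σ x₀ T) : Dg hG q ≤ G := by
  intro a b hab
  rw [dg_adj] at hab
  rw [hG.adj]
  unfold DAdj at hab
  tauto

lemma dadj_same {q : Mem σ x₀ T} {a b : W} (h : (e a).1 = (e b).1) :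
    DAdj e σ x₀ T q a b ↔ ∃ d, (eps σ ((e a).2, (e a).1, d)).1 = (e b).2 ∧
      mk σ x₀ T ((e a).2, (e a).1, d) = q := by
  unfold DAdj
  constructor
  · rintro (⟨-, h2 | h2⟩ | ⟨h1, -⟩)
    · exact ⟨true, by rw [eps_out]; exact h2.1, h2.2⟩
    · refine ⟨false, ?_, ?_⟩
      · rw [eps_in, ← h2.1]; simp
      · rw [← mk_eps, eps_in, ← h2.1, Equiv.symm_apply_apply]
        exact h2.2
    · exact absurd h h1
  · rintro ⟨d, h1, h2⟩
    left
    refine ⟨h, ?_⟩
    cases d
    · right
      rw [eps_in] at h1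
      have h3 : (σ (e a).1).symm (e a).2 = (e b).2 := h1
      refine ⟨by rw [← h3]; simp, ?_⟩
      rw [← mk_eps, eps_in] at h2
      rw [← h3]; exact h2
    · left
      rw [eps_out] at h1
      exact ⟨h1, h2⟩

/-- The neighbours along a curve. -/
lemma dg_nbhd (hG : CubSys σ G w e) (q : Mem σ x₀ T) (i : Bool) (v : V) :
    (Dg hG q).neighborSet (e.symm (i, v)) =
      (fun d => e.symm (i, (eps σ (v, i, d)).1)) '' {d | mk σ x₀ T (v, i, d) = q} ∪
        {b | b = e.symm (!i, v) ∧ v ≠ x₀ ∧ ∃ p, mk σ x₀ T (v, p) = q} := by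
  ext b
  rw [SimpleGraph.mem_neighborSet, dg_adj]
  by_cases h : i = (e b).1
  · rw [dadj_same (by simpa using h)]
    simp only [Equiv.apply_symm_apply, Set.mem_union, Set.mem_image, Set.mem_ofPred_eq]
    constructor
    · rintro ⟨d, h1, h2⟩
      left
      refine ⟨d, h2, ?_⟩
      rw [Equiv.symm_apply_eq]
      exact Prod.ext h h1
    · rintro (⟨d, h1, h2⟩ | ⟨h1, -⟩)
      · refine ⟨d, ?_, h1⟩
        rw [← h2]; simp
      · exfalso
        rw [h1] at h
        simp at h
  · unfold DAdj
    simp only [Equiv.apply_symm_apply, Set.mem_union, Set.mem_image, Set.mem_ofPred_eq]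
    constructor
    · rintro (⟨h1, -⟩ | ⟨h1, h2, h3, h4⟩)
      · exact absurd h1 h
      · right
        refine ⟨?_, h3, h4⟩
        rw [Equiv.eq_symm_apply]
        refine Prod.ext ?_ h2.symm
        revert h1
        cases i <;> cases (e b).1 <;> simp
    · rintro (⟨d, h1, h2⟩ | ⟨h1, h3, h4⟩)
      · exfalso
        rw [← h2] at h
        simp at h
      · right
        refine ⟨h, ?_, h3, h4⟩
        rw [h1]; simp

lemma eps_inj (hG : CubSys σ G w e) (v : V) (i d d' : Bool)
    (h : (eps σ (v, i, d)).1 = (eps σ (v, i, d')).1) : d = d' := by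
  cases d <;> cases d'
  · rfl
  · exfalso
    rw [eps_in, eps_out] at h
    apply hG.two i ((σ i).symm v)
    have h4 : (σ i).symm v = σ i v := h
    rw [Equiv.apply_symm_apply, ← h4]
  · exfalso
    rw [eps_in, eps_out] at h
    apply hG.two i ((σ i).symm v)
    have h4 : σ i v = (σ i).symm v := h
    rw [Equiv.apply_symm_apply, h4]
  · rfl

/-- Degrees along a curve. -/
lemma dg_degree [Finite V] (hG : CubSys σ G w e) (hT : Full σ x₀ T) (hst : Straight σ x₀ T)
    (q : Mem σ x₀ T) (a : W) (ha : (e a).2 ≠ x₀ ∧ (∃ p, mk σ x₀ T ((e a).2, p) = q) ∨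
      (e a).2 = x₀ ∧ ∃ d, mk σ x₀ T ((e a).2, (e a).1, d) = q) :
    ((Dg hG q).neighborSet a).ncard = 2 := by
  obtain ⟨i, v, rfl⟩ : ∃ i v, a = e.symm (i, v) := ⟨(e a).1, (e a).2, by simp⟩
  simp only [Equiv.apply_symm_apply] at ha
  rw [dg_nbhd]
  rcases ha with ⟨hv, hp⟩ | ⟨hv, d, hd⟩
  · obtain ⟨d, d', h⟩ := hT.fiber hv q hp
    have h1 : ∃ c, {d | mk σ x₀ T (v, i, d) = q} = {c} := by
      cases i
      · refine ⟨d', ?_⟩
        ext c
        rw [Set.mem_ofPred_eq, h]
        simp
      · refine ⟨d, ?_⟩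
        ext c
        rw [Set.mem_ofPred_eq, h]
        simp
    obtain ⟨c, hc⟩ := h1
    have h2 : {b | b = e.symm (!i, v) ∧ v ≠ x₀ ∧ ∃ p, mk σ x₀ T (v, p) = q} =
        {e.symm (!i, v)} := by
      ext b
      simp only [Set.mem_ofPred_eq, Set.mem_singleton_iff]
      exact ⟨fun h => h.1, fun h => ⟨h, hv, hp⟩⟩
    rw [hc, h2, Set.image_singleton, Set.singleton_union, Set.ncard_pair]
    intro h3
    have := congrArg Prod.fst (e.symm.injective h3)
    simp at this
  · subst hv
    have h1 : {d | mk σ v T (v, i, d) = q} = Set.univ := by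
      ext c
      simp only [Set.mem_ofPred_eq, Set.mem_univ, iff_true]
      cases i
      · rw [hst.facts.2.2.2] at hd ⊢; exact hd
      · rw [hst.facts.2.2.1] at hd ⊢; exact hd
    have h2 : {b | b = e.symm (!i, v) ∧ v ≠ v ∧ ∃ p, mk σ v T (v, p) = q} = ∅ := by
      ext b
      simp
    rw [h1, h2, Set.union_empty, Set.ncard_image_of_injective, Set.ncard_univ]
    · simp
    · intro d d' h3
      have := congrArg Prod.snd (e.symm.injective h3)
      exact eps_inj hG v i d d' this

lemma dg_cycles [Finite V] (hG : CubSys σ G w e) (hT : Full σ x₀ T) (hst : Straight σ x₀ T)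
    (q : Mem σ x₀ T) : (Dg hG q).IsCycles := by
  intro a ha
  apply dg_degree hG hT hst q a
  obtain ⟨b, hb⟩ := ha
  rw [SimpleGraph.mem_neighborSet, dg_adj] at hb
  by_cases hab : (e a).1 = (e b).1
  · obtain ⟨d, hd1, hd2⟩ := (dadj_same hab).1 hb
    by_cases hv : (e a).2 = x₀
    · exact Or.inr ⟨hv, d, hd2⟩
    · exact Or.inl ⟨hv, _, hd2⟩
  · rcases hb with ⟨h1, -⟩ | ⟨h1, h2, h3, h4⟩
    · exact absurd h1 hab
    · exact Or.inl ⟨h3, h4⟩

/-- A curve avoiding `x₀` as a subgraph of `G`. -/
def DSub (hG : CubSys σ G w e) (q : Mem σ x₀ T) : G.Subgraph where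
  verts := {a | ∃ p, mk σ x₀ T ((e a).2, p) = q}
  Adj a b := DAdj e σ x₀ T q a b
  adj_sub := fun hab => dg_le hG q hab
  edge_vert := by
    rintro a b hab
    rcases hab with ⟨h1, h2 | h2⟩ | ⟨h1, h2, h3, h4⟩
    · exact ⟨_, h2.2⟩
    · refine ⟨((e a).1, false), ?_⟩
      rw [← mk_eps, eps_in, ← h2.1, Equiv.symm_apply_apply]
      exact h2.2
    · exact h4
  symm := ⟨fun a b hab => ((dg_adj hG q a b).2 hab).symm⟩

lemma dsub_circuit [Finite V] (hG : CubSys σ G w e) (hT : Full σ x₀ T)
    (hst : Straight σ x₀ T) (q : Mem σ x₀ T) (hq : ∀ p, mk σ x₀ T (x₀, p) ≠ q) :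
    IsCircuit (DSub hG q) := by
  constructor
  · have hmem : ∀ h : HE V, mk σ x₀ T h = q → e.symm (h.2.1, h.1) ∈ (DSub hG q).verts := by
      intro h hh
      refine ⟨h.2, ?_⟩
      rw [Equiv.apply_symm_apply]
      exact hh
    have key : ∀ a b : HE V, Relation.EqvGen (rel σ x₀ T) a b → ∀ (ha : mk σ x₀ T a = q)
        (hb : mk σ x₀ T b = q), (DSub hG q).coe.Reachable
          ⟨e.symm (a.2.1, a.1), hmem a ha⟩ ⟨e.symm (b.2.1, b.1), hmem b hb⟩ := by
      intro a b hab
      induction hab with
      | rel x y h =>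
        intro ha hb
        rcases h with h | h
        · apply SimpleGraph.Adj.reachable
          show DAdj e σ x₀ T q (e.symm (x.2.1, x.1)) (e.symm (y.2.1, y.1))
          have h1 : y.2.1 = x.2.1 := by
            rw [h]
            obtain ⟨v, i, d⟩ := x
            cases d
            · rw [eps_in]
            · rw [eps_out]
          rw [dadj_same (by simp [h1])]
          refine ⟨x.2.2, ?_, ?_⟩
          · simp only [Equiv.apply_symm_apply]
            rw [h]
          · simp only [Equiv.apply_symm_apply]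
            exact ha
        · obtain ⟨v, p⟩ := x
          by_cases hv : v ≠ x₀
          · rw [tau_ne T hv] at h
            subst h
            by_cases hp : (flip (T ⟨v, hv⟩) p).1 = p.1
            · have h2 : (⟨e.symm (p.1, v), hmem (v, p) ha⟩ : (DSub hG q).verts) =
                  ⟨e.symm ((flip (T ⟨v, hv⟩) p).1, v), hmem _ hb⟩ :=
                Subtype.ext (congrArg (fun i => e.symm (i, v)) hp.symm)
              show (DSub hG q).coe.Reachable
                (⟨e.symm (p.1, v), hmem (v, p) ha⟩ : (DSub hG q).verts)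
                ⟨e.symm ((flip (T ⟨v, hv⟩) p).1, v), hmem _ hb⟩
              rw [h2]
            · apply SimpleGraph.Adj.reachable
              show DAdj e σ x₀ T q (e.symm (p.1, v)) (e.symm ((flip (T ⟨v, hv⟩) p).1, v))
              right
              simp only [Equiv.apply_symm_apply]
              exact ⟨fun h => hp h.symm, by trivial, hv, _, ha⟩
          · push Not at hv
            subst hv
            exact absurd ha (hq _)
      | refl x => intro ha hb; exact SimpleGraph.Reachable.refl _
      | symm x y _ ih => intro ha hb; exact (ih hb ha).symm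
      | trans x y z hxy _ ih1 ih2 =>
        intro ha hb
        have hy : mk σ x₀ T y = q := by rw [← ha]; exact ((mk_eq_iff σ x₀ T x y).2 hxy).symm
        exact (ih1 ha hy).trans (ih2 hy hb)
    obtain ⟨h₀, hh₀⟩ := mk_surj σ x₀ T q
    constructor
    have : Nonempty (DSub hG q).verts := ⟨⟨_, hmem h₀ hh₀⟩⟩
    -- every vertex of the subgraph is that of a half-edge of the curve
    have hrep : ∀ u : (DSub hG q).verts, ∃ h : HE V, ∃ hh : mk σ x₀ T h = q,
        u = ⟨e.symm (h.2.1, h.1), hmem h hh⟩ := by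
      rintro ⟨u, p, hp⟩
      have hv : (e u).2 ≠ x₀ := by
        intro h; rw [h] at hp; exact hq _ hp
      obtain ⟨d, d', h⟩ := hT.fiber hv q ⟨p, hp⟩
      rcases hu : (e u).1 with _ | _
      · refine ⟨((e u).2, false, d'), (h _).2 (Or.inr rfl), Subtype.ext ?_⟩
        simp only
        rw [← hu]; simp
      · refine ⟨((e u).2, true, d), (h _).2 (Or.inl rfl), Subtype.ext ?_⟩
        simp only
        rw [← hu]; simp
    refine ⟨fun u v => ?_⟩
    obtain ⟨a, ha, rfl⟩ := hrep u
    obtain ⟨b, hb, rfl⟩ := hrep v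
    exact key a b ((mk_eq_iff σ x₀ T _ _).1 (ha.trans hb.symm)) ha hb
  · intro a ha
    obtain ⟨p, hp⟩ := ha
    have hv : (e a).2 ≠ x₀ := by
      intro h; rw [h] at hp; exact hq _ hp
    have h1 : (DSub hG q).neighborSet a = (Dg hG q).neighborSet a := rfl
    rw [h1]
    exact dg_degree hG hT hst q a (Or.inl ⟨hv, p, hp⟩)

end Gd16
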