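import Pool.Agent.K7.H16.Gd.Count

/-!
# The length of the chains
-/

set_option autoImplicit false
set_option linter.unusedSectionVars false

namespace Gd16

open Goddyn Contra2 Finset

variable {V : Type*} [DecidableEq V] [Fintype V] {σ : Bool → Equiv.Perm V} {x₀ : V}
  {T : {v // v ≠ x₀} → Tr}

/-- An involution without fixed points on a finite set. -/
lemma even_of_involution {α : Type*} [DecidableEq α] (A : Finset α) (e : α → α)
    (he : ∀ x ∈ A, e x ∈ A) (hee : ∀ x ∈ A, e (e x) = x) (hne : ∀ x ∈ A, e x ≠ x) :
    Even A.card := by
  have h := Finset.sum_involution (s := A) (f := fun _ => (1 : ZMod 2)) (fun x _ => e x)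
    (fun x _ => by decide) (fun x hx _ => hne x hx) (fun x hx => he x hx) (fun x hx => hee x hx)
  rw [Finset.sum_const, nsmul_eq_mul, mul_one, ZMod.natCast_eq_zero_iff] at h
  exact even_iff_two_dvd.2 h

/-- Every gap of the chain contains at least two vertices, so the chain is short. -/
theorem chain_short (hT : Full σ x₀ T) (hst : Straight σ x₀ T) {a : ℕ}
    {idx : Mem σ x₀ T → ℕ} (h1 : idx (E1 σ x₀ T) = 0) (h2 : idx (E2 σ x₀ T) = a)
    (h3 : ∀ i, idx i ≤ a) (h4 : Function.Injective idx) (h5 : ∀ k ≤ a, ∃ i, idx i = k)
    (h6 : ∀ v, v ≠ x₀ → idx (mk σ x₀ T (v, true, true)) = idx (mk σ x₀ T (v, true, false)) + 1 ∨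
      idx (mk σ x₀ T (v, true, false)) = idx (mk σ x₀ T (v, true, true)) + 1)
    (h7 : ∀ i j, idx j = idx i + 1 → ∃ v, v ≠ x₀ ∧ (∃ p, mk σ x₀ T (v, p) = i) ∧
        ∃ p, mk σ x₀ T (v, p) = j) :
    2 * a + 1 ≤ Fintype.card V := by
  classical
  -- the gap of a vertex
  let g : V → ℕ := fun v =>
    min (idx (mk σ x₀ T (v, true, true))) (idx (mk σ x₀ T (v, true, false)))
  -- the gap `k`
  let G : ℕ → Finset V := fun k => Finset.univ.filter (fun v => v ≠ x₀ ∧ g v = k)
  have hG2 : ∀ k < a, 2 ≤ (G k).card := by
    intro k hk
    have hpos : 0 < (G k).card := by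
      obtain ⟨i, hi⟩ := h5 k hk.le
      obtain ⟨j, hj⟩ := h5 (k + 1) hk
      obtain ⟨v, hv, ⟨p, hp⟩, p', hp'⟩ := h7 i j (by rw [hi, hj])
      have hcase : ∀ p, mk σ x₀ T (v, p) = mk σ x₀ T (v, true, true) ∨
          mk σ x₀ T (v, p) = mk σ x₀ T (v, true, false) := by
        rintro ⟨i, d⟩
        cases i
        · rcases hT.tau_false hv with h | h
          · cases d
            · right; exact h false
            · left; exact h true
          · cases d
            · left; exact h true
            · right; exact h false
        · cases d
          · right; rfl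
          · left; rfl
      rw [Finset.card_pos]
      refine ⟨v, ?_⟩
      simp only [G, g, mem_filter, mem_univ, true_and]
      refine ⟨hv, ?_⟩
      have e1 : idx (mk σ x₀ T (v, p)) = k := by rw [hp, hi]
      have e2 : idx (mk σ x₀ T (v, p')) = k + 1 := by rw [hp', hj]
      have h8 := h6 v hv
      rcases hcase p with h | h <;> rcases hcase p' with h' | h' <;>
        rw [h] at e1 <;> rw [h'] at e2 <;> omega
    have heven : Even (G k).card := by
      -- the outgoing and incoming half-edges of the first circuit on the first `k + 1` curves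
      let A : Finset (HE V) := Finset.univ.filter
        (fun h => h.2.1 = true ∧ idx (mk σ x₀ T h) ≤ k)
      have hA : Even A.card := by
        apply even_of_involution A (eps σ)
        · intro x hx
          simp only [A, mem_filter, mem_univ, true_and] at hx ⊢
          rw [mk_eps]
          refine ⟨?_, hx.2⟩
          obtain ⟨v, i, d⟩ := x
          cases d
          · rw [eps_in]; exact hx.1
          · rw [eps_out]; exact hx.1
        · intro x _; exact eps_eps σ x
        · intro x _; exact eps_ne σ x
      have hcount : A.card = ∑ v : V, ((if idx (mk σ x₀ T (v, true, true)) ≤ k then 1 else 0) +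
          (if idx (mk σ x₀ T (v, true, false)) ≤ k then 1 else 0)) := by
        rw [Finset.card_filter, Fintype.sum_prod_type]
        apply Finset.sum_congr rfl
        intro v _
        rw [Fintype.sum_prod_type, Fintype.sum_bool, Fintype.sum_bool, Fintype.sum_bool]
        simp
      have hsplit : (A.card : ZMod 2) = (G k).card := by
        rw [hcount, Finset.card_filter]
        push_cast
        apply Finset.sum_congr rfl
        intro v _
        by_cases hv : v = x₀
        · subst hv
          rw [hst.facts.2.2.1, hst.facts.2.2.1, h1]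
          simp only [Nat.zero_le, if_true, ne_eq, not_true_eq_false, false_and, if_false]
          decide
        · simp only [g, ne_eq, hv, not_false_eq_true, true_and]
          rcases h6 v hv with h | h
          · rw [h, min_eq_right (by omega)]
            by_cases e1 : idx (mk σ x₀ T (v, true, false)) + 1 ≤ k
            · have e2 : idx (mk σ x₀ T (v, true, false)) ≤ k := by omega
              have e3 : idx (mk σ x₀ T (v, true, false)) ≠ k := by omega
              rw [if_pos e1, if_pos e2, if_neg e3]; decide
            · by_cases e2 : idx (mk σ x₀ T (v, true, false)) ≤ k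
              · have e3 : idx (mk σ x₀ T (v, true, false)) = k := by omega
                rw [if_neg e1, if_pos e2, if_pos e3]; decide
              · have e3 : idx (mk σ x₀ T (v, true, false)) ≠ k := by omega
                rw [if_neg e1, if_neg e2, if_neg e3]; decide
          · rw [h, min_eq_left (by omega)]
            by_cases e1 : idx (mk σ x₀ T (v, true, true)) + 1 ≤ k
            · have e2 : idx (mk σ x₀ T (v, true, true)) ≤ k := by omega
              have e3 : idx (mk σ x₀ T (v, true, true)) ≠ k := by omega
              rw [if_pos e1, if_pos e2, if_neg e3]; decide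
            · by_cases e2 : idx (mk σ x₀ T (v, true, true)) ≤ k
              · have e3 : idx (mk σ x₀ T (v, true, true)) = k := by omega
                rw [if_neg e1, if_pos e2, if_pos e3]; decide
              · have e3 : idx (mk σ x₀ T (v, true, true)) ≠ k := by omega
                rw [if_neg e1, if_neg e2, if_neg e3]; decide
      have h0 : (A.card : ZMod 2) = 0 :=
        (ZMod.natCast_eq_zero_iff _ _).2 (even_iff_two_dvd.1 hA)
      rw [h0] at hsplit
      exact even_iff_two_dvd.2 ((ZMod.natCast_eq_zero_iff _ _).1 hsplit.symm)
    obtain ⟨m, hm⟩ := heven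
    omega
  have hdisj : ∀ k ∈ Finset.range a, ∀ l ∈ Finset.range a, k ≠ l → Disjoint (G k) (G l) := by
    intro k _ l _ hkl
    rw [Finset.disjoint_left]
    intro v hv hv'
    simp only [G, mem_filter, mem_univ, true_and] at hv hv'
    exact hkl (hv.2.symm.trans hv'.2)
  have hsub : (Finset.range a).biUnion G ⊆ Finset.univ.erase x₀ := by
    intro v hv
    rw [Finset.mem_biUnion] at hv
    obtain ⟨k, -, hk⟩ := hv
    simp only [G, mem_filter, mem_univ, true_and] at hk
    rw [Finset.mem_erase]
    exact ⟨hk.1, Finset.mem_univ _⟩
  have hcard := Finset.card_le_card hsub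
  rw [Finset.card_biUnion hdisj, Finset.card_erase_of_mem (Finset.mem_univ _),
    Finset.card_univ] at hcard
  have hsum : ∑ _k ∈ Finset.range a, 2 ≤ ∑ k ∈ Finset.range a, (G k).card :=
    Finset.sum_le_sum (fun k hk => hG2 k (Finset.mem_range.1 hk))
  rw [Finset.sum_const, Finset.card_range, smul_eq_mul] at hsum
  have hpos : 0 < Fintype.card V := Fintype.card_pos_iff.2 ⟨x₀⟩
  omega

end Gd16
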