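import Pool.Agent.K7.H16.Gd.EvalX
import Pool.Agent.K7.H16.Gd.Gaps

/-!
# The value of the restricted alternating cycle sum
-/

set_option autoImplicit false
set_option linter.unusedSectionVars false

namespace Gd16

open Goddyn Contra2 Finset

variable {V : Type*} [DecidableEq V] [Fintype V] {σ : Bool → Equiv.Perm V} {x₀ : V}
  {c : Bool → V → ZMod 2}

lemma ph_ne {v : V} (hv : v ≠ x₀) {τ τ' : ZMod 2} (h : ph x₀ c τ = ph x₀ c τ') : τ = τ' := by
  have h1 := congrFun h ⟨v, hv⟩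
  have key : ∀ a b s s' : ZMod 2, (a = b + s ↔ a = b + s') → s = s' := by decide
  apply key (c true v) (c false v) τ τ'
  simp only [ph] at h1
  by_cases h2 : c true v = c false v + τ
  · rw [if_pos h2] at h1
    by_cases h3 : c true v = c false v + τ'
    · exact ⟨fun _ => h3, fun _ => h2⟩
    · rw [if_neg h3] at h1; exact absurd h1 (by decide)
  · rw [if_neg h2] at h1
    by_cases h3 : c true v = c false v + τ'
    · rw [if_pos h3] at h1; exact absurd h1 (by decide)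
    · exact ⟨fun h => absurd h h2, fun h => absurd h h3⟩

lemma CC_unique {q : ℕ} [NeZero q] {T T' : {v // v ≠ x₀} → Tr} {f : HE V → ZMod q}
    (h : f ∈ CC q σ x₀ T) (h' : f ∈ CC q σ x₀ T') : T = T' := by
  have hfull := full_of_mem_CC h
  have hfull' := full_of_mem_CC h'
  rw [mem_CC] at h h'
  funext ⟨v, hv⟩
  have h5 : Con (T ⟨v, hv⟩) v f := by
    intro p
    have := h.2.1 (v, p)
    rwa [tau_ne T hv] at this
  have h5' : Con (T' ⟨v, hv⟩) v f := by
    intro p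
    have := h'.2.1 (v, p)
    rwa [tau_ne T' hv] at this
  have h6 := h.2.2 v hv
  rcases hT : T ⟨v, hv⟩ with _ | _ | _ <;> rcases hT' : T' ⟨v, hv⟩ with _ | _ | _
  · rfl
  · exact absurd hT (hfull.ne_X hv)
  · exact absurd hT (hfull.ne_X hv)
  · exact absurd hT' (hfull'.ne_X hv)
  · rfl
  · exfalso
    rw [hT, con_Y_iff] at h5
    rw [hT', con_Z_iff] at h5'
    exact h6 (h5.1.trans h5'.2.symm)
  · exact absurd hT' (hfull'.ne_X hv)
  · exfalso
    rw [hT, con_Z_iff] at h5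
    rw [hT', con_Y_iff] at h5'
    exact h6 (h5.1.trans h5'.2.symm)
  · rfl

section

variable (htr : ∀ i x y, ∃ k : ℕ, (σ i ^ k) x = y) (hne : ∀ i v, σ i v ≠ v)
  (hc : IsPar σ x₀ c) (hstr : ∀ T, Full σ x₀ T → Straight σ x₀ T)
  (hsep : ∀ T, Full σ x₀ T → Sep σ x₀ T)

include htr hne hc hstr hsep

lemma phase_facts {v₀ : V} (hv₀ : v₀ ≠ x₀) (τ : ZMod 2) :
    ∃ a : ℕ, (a : ZMod 2) = τ ∧ a ≠ 0 ∧ 2 * a + 1 ≤ Fintype.card V ∧
      ∀ (q : ℕ) [NeZero q], (CC q σ x₀ (ph x₀ c τ)).card = q * (q - 1) ^ a := by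
  have hT := full_ph hc τ
  have hst := hstr _ hT
  obtain ⟨a, idx, h1, h2, h3, h4, h5, h6, h7⟩ := exists_chain (htr true) hne hT hst (hsep _ hT)
  refine ⟨a, ?_, ?_, chain_short hT hst h1 h2 h3 h4 h5 h6 h7, ?_⟩
  · have h8 := eq_phase hc htr hT hst h1 h2 h6
    exact (ph_ne hv₀ h8.1).symm
  · intro h0
    rw [h0] at h2
    exact hst.facts.2.1 (h4 (h1.trans h2.symm))
  · intro q _
    exact card_CC q hT h3 h4 h5 h6 h7

lemma F_cx_eq {v₀ : V} (hv₀ : v₀ ≠ x₀) : ∃ a b : ℕ, Even a ∧ a ≠ 0 ∧ Odd b ∧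
    2 * a + 1 ≤ Fintype.card V ∧ 2 * b + 1 ≤ Fintype.card V ∧
    ∀ (q : ℕ) [NeZero q], F q σ (cx x₀) =
      (∏ v, sg (ph x₀ c 0 v)) * (q * (q - 1) ^ a) + (∏ v, sg (ph x₀ c 1 v)) * (q * (q - 1) ^ b) := by
  classical
  obtain ⟨a, ha1, ha2, ha4, ha3⟩ := phase_facts htr hne hc hstr hsep hv₀ 0
  obtain ⟨b, hb1, hb2, hb4, hb3⟩ := phase_facts htr hne hc hstr hsep hv₀ 1
  refine ⟨a, b, ?_, ha2, ?_, ha4, hb4, ?_⟩
  · have h0 : (2 : ℕ) ∣ a := (ZMod.natCast_eq_zero_iff a 2).1 ha1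
    exact even_iff_two_dvd.2 h0
  · by_contra hb
    rw [Nat.not_odd_iff_even, even_iff_two_dvd] at hb
    have := (ZMod.natCast_eq_zero_iff b 2).2 hb
    rw [this] at hb1
    exact absurd hb1 (by decide)
  · intro q _
    have hq : 1 ≤ q := Nat.one_le_iff_ne_zero.2 (NeZero.ne q)
    have hcard : ∀ k : ℕ, ((q * (q - 1) ^ k : ℕ) : ℤ) = q * ((q : ℤ) - 1) ^ k := by
      intro k; push_cast [Nat.cast_sub hq]; ring
    have hpt : ∀ f ∈ Col q σ, ∏ v, ∑ t, cx x₀ v t * ind t v f =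
        (if f ∈ CC q σ x₀ (ph x₀ c 0) then ∏ v, sg (ph x₀ c 0 v) else 0) +
        (if f ∈ CC q σ x₀ (ph x₀ c 1) then ∏ v, sg (ph x₀ c 1 v) else 0) := by
      intro f hf
      have h01 : ph x₀ c 0 ≠ ph x₀ c 1 := fun h => absurd (ph_ne hv₀ h) (by decide)
      by_cases h0 : f ∈ CC q σ x₀ (ph x₀ c 0)
      · have h1 : f ∉ CC q σ x₀ (ph x₀ c 1) := fun h1 => h01 (CC_unique h0 h1)
        rw [if_pos h0, if_neg h1, add_zero]
        exact prod_of_mem_CC h0 (hstr _ (full_ph hc 0))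
      · by_cases h1 : f ∈ CC q σ x₀ (ph x₀ c 1)
        · rw [if_neg h0, if_pos h1, zero_add]
          exact prod_of_mem_CC h1 (hstr _ (full_ph hc 1))
        · rw [if_neg h0, if_neg h1, add_zero]
          by_contra hne0
          obtain ⟨T, hT⟩ := exists_mem_CC hf hne0
          have hfull := full_of_mem_CC hT
          have hst := hstr _ hfull
          obtain ⟨a', idx, e1, e2, e3, e4, e5, e6, e7⟩ :=
            exists_chain (htr true) hne hfull hst (hsep _ hfull)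
          have h8 := (eq_phase hc htr hfull hst e1 e2 e6).1
          have key : ∀ s : ZMod 2, s = 0 ∨ s = 1 := by decide
          rcases key (a' : ZMod 2) with h9 | h9
          · rw [h9] at h8; rw [h8] at hT; exact h0 hT
          · rw [h9] at h8; rw [h8] at hT; exact h1 hT
    unfold F
    rw [Finset.sum_congr rfl hpt, Finset.sum_add_distrib, ← Finset.sum_filter,
      ← Finset.sum_filter, Finset.sum_const, Finset.sum_const]
    have hfil : ∀ τ, (Col q σ).filter (fun f => f ∈ CC q σ x₀ (ph x₀ c τ)) =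
        CC q σ x₀ (ph x₀ c τ) := by
      intro τ
      ext f
      simp only [mem_filter, Col, mem_univ, true_and]
      constructor
      · rintro ⟨-, h⟩; exact h
      · intro h
        exact ⟨(mem_CC.1 h).1, h⟩
    rw [hfil, hfil, ha3, hb3, nsmul_eq_mul, nsmul_eq_mul, hcard, hcard]
    ring

/-- The restricted sum up to sign. -/
theorem altSumAvoid_eq {v₀ : V} (hv₀ : v₀ ≠ x₀) (hodd : Odd (Fintype.card V)) :
    ∃ a b : ℕ, Even a ∧ a ≠ 0 ∧ Odd b ∧ 2 * a + 1 ≤ Fintype.card V ∧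
      2 * b + 1 ≤ Fintype.card V ∧
      (altSumAvoid σ x₀ = 2 * (3 ^ b - 3 ^ a) ∨ altSumAvoid σ x₀ = -(2 * (3 ^ b - 3 ^ a))) := by
  classical
  obtain ⟨a, b, ha, ha0, hb, ha4, hb4, h⟩ := F_cx_eq htr hne hc hstr hsep hv₀
  refine ⟨a, b, ha, ha0, hb, ha4, hb4, ?_⟩
  obtain ⟨s, hs⟩ : ∃ s, s = ∏ v, sg (ph x₀ c 0 v) := ⟨_, rfl⟩
  have hs1 : ∏ v, sg (ph x₀ c 1 v) = s := by
    have h1 : ∀ v : {v // v ≠ x₀}, sg (ph x₀ c 1 v) = (-1) * sg (ph x₀ c 0 v) := by
      intro v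
      have key : ∀ p r : ZMod 2, (if p = r + 1 then Tr.Y else Tr.Z) =
          (if p = r + 0 then Tr.Z else Tr.Y) := by decide
      simp only [ph]
      rw [key]
      by_cases h2 : c true v.1 = c false v.1 + 0
      · rw [if_pos h2, if_pos h2]; simp [sg]
      · rw [if_neg h2, if_neg h2]; simp [sg]
    rw [Finset.prod_congr rfl (fun v _ => h1 v), Finset.prod_mul_distrib, Finset.prod_const, ← hs,
      Finset.card_univ, Fintype.card_subtype_compl, Fintype.card_subtype_eq]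
    obtain ⟨k, hk⟩ := hodd
    rw [hk, Nat.add_sub_cancel, pow_mul]
    norm_num
  have hsq : s * s = 1 := by
    rw [hs, ← Finset.prod_mul_distrib]
    apply Finset.prod_eq_one
    intro v _
    simp only [ph]
    by_cases h2 : c true v.1 = c false v.1 + 0
    · rw [if_pos h2]; simp [sg]
    · rw [if_neg h2]; simp [sg]
  have hs' : s = 1 ∨ s = -1 := by
    rcases Int.eq_one_or_neg_one_of_mul_eq_one hsq with h1 | h1
    · exact Or.inl h1
    · exact Or.inr h1
  -- the difference is divisible by everything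
  have hdiv : ∀ (q : ℕ) [NeZero q],
      ((q : ℤ) + 2) ∣ altSumAvoid σ x₀ - s * ((-2) * (-3) ^ a + (-2) * (-3) ^ b) := by
    intro q _
    have h1 := F_cx_mod σ x₀ q
    rw [h q, hs1, ← hs] at h1
    have h2 : ∀ k : ℕ, ((q : ℤ) + 2) ∣ (q : ℤ) * (q - 1) ^ k - (-2) * (-3) ^ k := by
      intro k
      have e1 : ((q : ℤ) + 2) ∣ ((q : ℤ) - 1) ^ k - (-3) ^ k := by
        have := sub_dvd_pow_sub_pow ((q : ℤ) - 1) (-3) k
        have e2 : (q : ℤ) - 1 - -3 = q + 2 := by ring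
        rwa [e2] at this
      have e3 : (q : ℤ) * (q - 1) ^ k - (-2) * (-3) ^ k =
          (q : ℤ) * (((q : ℤ) - 1) ^ k - (-3) ^ k) + (q + 2) * (-3) ^ k := by ring
      rw [e3]
      exact dvd_add (Dvd.dvd.mul_left e1 _) (dvd_mul_right _ _)
    have h3 : altSumAvoid σ x₀ - s * ((-2) * (-3) ^ a + (-2) * (-3) ^ b) =
        s * (((q : ℤ) * (q - 1) ^ a - (-2) * (-3) ^ a) + ((q : ℤ) * (q - 1) ^ b -
          (-2) * (-3) ^ b)) - (s * (q * (q - 1) ^ a) + s * (q * (q - 1) ^ b) -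
          altSumAvoid σ x₀) := by ring
    rw [h3]
    exact dvd_sub (Dvd.dvd.mul_left (dvd_add (h2 a) (h2 b)) _) h1
  have heq : altSumAvoid σ x₀ - s * ((-2) * (-3) ^ a + (-2) * (-3) ^ b) = 0 := by
    by_contra hS
    obtain ⟨q, hq⟩ : ∃ q : ℕ, q =
      (altSumAvoid σ x₀ - s * ((-2) * (-3) ^ a + (-2) * (-3) ^ b)).natAbs := ⟨_, rfl⟩
    have hq' : q ≠ 0 := by rw [hq]; exact Int.natAbs_ne_zero.2 hS
    have inst : NeZero q := ⟨hq'⟩
    have h2 := Int.natAbs_dvd_natAbs.2 (hdiv q)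
    have h3 := Nat.le_of_dvd (Int.natAbs_pos.2 hS) h2
    have h4 : ((q : ℤ) + 2).natAbs = q + 2 := by omega
    omega
  have ea : (-3 : ℤ) ^ a = 3 ^ a := ha.neg_pow 3
  have eb : (-3 : ℤ) ^ b = -3 ^ b := hb.neg_pow 3
  rw [ea, eb] at heq
  rcases hs' with h1 | h1
  · left
    rw [h1] at heq
    linarith
  · right
    rw [h1] at heq
    linarith

end

/-- The restricted sum modulo 16. -/
theorem altSumAvoid_mod (htr : ∀ i x y, ∃ k : ℕ, (σ i ^ k) x = y)
    (hn : Fintype.card V % 4 = 1) : altSumAvoid σ x₀ % 16 = 4 := by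
  classical
  have : Nonempty V := ⟨x₀⟩
  have h1 : (16 : ℤ) ∣ altSumAvoid σ x₀ -
      ∑ U ∈ Finset.univ.filter (fun U : Finset V => x₀ ∉ U),
        (if U.card = 0 then 4 else if U.card = 1 then -4 else 0 : ℤ) := by
    unfold altSumAvoid
    rw [← Finset.sum_sub_distrib]
    apply Finset.dvd_sum
    intro U _
    have h2 := term_mod σ htr U
    have h3 : (16 : ℤ) ∣ 64 := by norm_num
    have h4 := h3.trans h2
    have h5 : (16 : ℤ) ∣ ((if U.card = 0 then 4 else if U.card = 1 then -4 else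
        if U.card = 2 then 16 else 0) + if U.card = 3 ∧ ncyc (theta σ U) = 1 then -16 else 0) -
        (if U.card = 0 then 4 else if U.card = 1 then -4 else 0 : ℤ) := by
      by_cases e0 : U.card = 0
      · simp [e0]
      · by_cases e1 : U.card = 1
        · simp [e1]
        · by_cases e2 : U.card = 2
          · simp [e2]
          · by_cases e3 : U.card = 3 ∧ ncyc (theta σ U) = 1
            · rw [if_neg e0, if_neg e1, if_neg e2, if_pos e3, if_neg e0, if_neg e1]; norm_num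
            · rw [if_neg e0, if_neg e1, if_neg e2, if_neg e3, if_neg e0, if_neg e1]; norm_num
    have h6 := dvd_add h4 h5
    rwa [sub_add_sub_cancel] at h6
  have h2 : Finset.univ.filter (fun U : Finset V => x₀ ∉ U) =
      (Finset.univ.erase x₀).powerset := by
    ext U
    simp only [mem_filter, mem_univ, true_and, mem_powerset]
    constructor
    · intro h v hv
      rw [Finset.mem_erase]
      exact ⟨fun e => h (e ▸ hv), Finset.mem_univ _⟩
    · intro h hx
      exact absurd (h hx) (Finset.notMem_erase _ _)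
  have h3 : ∑ U ∈ Finset.univ.filter (fun U : Finset V => x₀ ∉ U),
        (if U.card = 0 then 4 else if U.card = 1 then -4 else 0 : ℤ) =
      4 - 4 * ((Fintype.card V : ℤ) - 1) := by
    rw [h2]
    have h5 := Finset.sum_powerset_apply_card
      (fun m => (if m = 0 then 4 else if m = 1 then -4 else 0 : ℤ))
      (x := (Finset.univ.erase x₀ : Finset V))
    rw [h5, Finset.card_erase_of_mem (Finset.mem_univ _), Finset.card_univ]
    obtain ⟨k, hk⟩ : ∃ k, Fintype.card V = k + 1 :=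
      ⟨Fintype.card V - 1, by have := Fintype.card_pos (α := V); omega⟩
    rw [hk, Nat.add_sub_cancel]
    rcases k with _ | k
    · simp
    · rw [Finset.sum_range_succ', Finset.sum_range_succ']
      simp
      ring
  rw [h3] at h1
  omega

/-- **The restricted sum.** -/
theorem altSumAvoid_value (htr : ∀ i x y, ∃ k : ℕ, (σ i ^ k) x = y) (hne : ∀ i v, σ i v ≠ v)
    (hstr : ∀ T, Full σ x₀ T → Straight σ x₀ T) (hsep : ∀ T, Full σ x₀ T → Sep σ x₀ T)
    (hn : Fintype.card V % 4 = 1) :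
    ∃ a b : ℕ, Even a ∧ a ≠ 0 ∧ Odd b ∧ 2 * a + 1 ≤ Fintype.card V ∧
      2 * b + 1 ≤ Fintype.card V ∧ altSumAvoid σ x₀ = 2 * (3 ^ b - 3 ^ a) := by
  have hodd : Odd (Fintype.card V) := by rw [Nat.odd_iff]; omega
  obtain ⟨c, hc⟩ := exists_par σ htr x₀ hodd
  obtain ⟨a, b, ha, ha0, hb, ha4, hb4, h⟩ :=
    altSumAvoid_eq htr hne hc hstr hsep (hne true x₀) hodd
  refine ⟨a, b, ha, ha0, hb, ha4, hb4, ?_⟩
  rcases h with h | h
  · exact h
  · exfalso
    have h1 := altSumAvoid_mod (x₀ := x₀) htr hn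
    rw [h] at h1
    obtain ⟨k, hk⟩ := ha
    obtain ⟨l, hl⟩ := hb
    have e1 : (3 : ℤ) ^ a % 8 = 1 := by
      have : (3 : ℤ) ^ a = 9 ^ k := by
        rw [hk, ← two_mul, pow_mul]; norm_num
      rw [this]
      have h9 : (9 : ℤ) ^ k ≡ 1 ^ k [ZMOD 8] := Int.ModEq.pow k (by decide)
      rw [one_pow] at h9
      exact h9
    have e2 : (3 : ℤ) ^ b % 8 = 3 := by
      have : (3 : ℤ) ^ b = 3 * 9 ^ l := by
        rw [hl, pow_succ, pow_mul]; norm_num; ring
      rw [this]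
      have h9 : (9 : ℤ) ^ l ≡ 1 ^ l [ZMOD 8] := Int.ModEq.pow l (by decide)
      rw [one_pow] at h9
      exact Int.ModEq.mul_left 3 h9
    omega

end Gd16
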