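import Pool.Agent.K7.H16.Gd.ContraSep
import Pool.Agent.K7.H16.Gd.MainX
import Pool.Agent.Helper310.Contra2.Main

/-!
# The restricted alternating cycle sums of a critical contra pair
-/

set_option autoImplicit false
set_option linter.unusedSectionVars false

namespace Gd16

open Contra2

variable {W : Type*} {G : SimpleGraph W}

/-- A labelled permutation graph as a cubic graph given by two circuits. -/
theorem cubSys_of_labelling [Finite W] (M C₁ C₂ : G.Subgraph)
    (h : IsPermutationGraph G M C₁ C₂) {n : ℕ} [NeZero n] (x y : Fin n → W)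
    (π : Equiv.Perm (Fin n)) (hlab : IsLabelling M C₁ C₂ x y π) :
    ∃ e : W ≃ Bool × Fin n, CubSys (sigma π) G (weight M) e := by
  classical
  obtain ⟨m, hm, hmu, hmm, hnot, hall, hm12, hm21⟩ := matching_facts M C₁ C₂ h
  obtain ⟨h3, hx⟩ := listed_adj h.circuit₁ x hlab.x_inj hlab.range_x hlab.adj_x
  obtain ⟨-, hy⟩ := listed_adj h.circuit₂ y hlab.y_inj hlab.range_y hlab.adj_y
  have hxm : ∀ i, x i ∈ C₁.verts := fun i => by rw [← hlab.range_x]; exact ⟨i, rfl⟩
  have hym : ∀ i, y i ∈ C₂.verts := fun i => by rw [← hlab.range_y]; exact ⟨i, rfl⟩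
  have hmx : ∀ i, m (x i) = y (π i) := fun i => (hmu _ _ (hlab.matched i)).symm
  have hσ2 : ∀ i v, sigma π i (sigma π i v) ≠ v := by
    have key : ∀ v : Fin n, v + 1 + 1 ≠ v := by
      intro v hv
      have h1 := fin_succ v
      have h2 := fin_succ (v + 1)
      rw [hv] at h2
      omega
    intro i v
    cases i
    · rw [sigma_false, sigma_false]
      intro h1
      rw [Equiv.symm_apply_eq, Equiv.apply_symm_apply] at h1
      exact key _ h1
    · exact key v
  let Q : Bool × Fin n → W := fun a => if a.1 = true then x a.2 else y (π a.2)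
  have Q1 : ∀ v, Q (true, v) = x v := fun v => rfl
  have Q2 : ∀ v, Q (false, v) = y (π v) := fun v => rfl
  have hQ : Function.Bijective Q := by
    constructor
    · rintro ⟨i, v⟩ ⟨j, w⟩ hab
      cases i <;> cases j
      · rw [Q2, Q2] at hab
        rw [π.injective (hlab.y_inj hab)]
      · rw [Q2, Q1] at hab
        exact absurd (hab ▸ hym (π v)) (hnot _ (hxm w))
      · rw [Q1, Q2] at hab
        exact absurd (hab.symm ▸ hym (π w)) (hnot _ (hxm v))
      · rw [Q1, Q1] at hab
        rw [hlab.x_inj hab]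
    · intro w
      by_cases hw : w ∈ C₁.verts
      · rw [← hlab.range_x] at hw
        obtain ⟨i, rfl⟩ := hw
        exact ⟨(true, i), rfl⟩
      · have hw2 := hall w hw
        rw [← hlab.range_y] at hw2
        obtain ⟨i, rfl⟩ := hw2
        refine ⟨(false, π.symm i), ?_⟩
        rw [Q2, Equiv.apply_symm_apply]
  let e : Bool × Fin n ≃ W := Equiv.ofBijective Q hQ
  have he : ∀ a, e a = Q a := fun a => rfl
  have hMadj : ∀ v w, M.Adj (x v) (y (π w)) ↔ v = w := by
    intro v w
    constructor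
    · intro h1
      have := hmu _ _ h1
      rw [hmx] at this
      exact (π.injective (hlab.y_inj this)).symm
    · rintro rfl; exact hlab.matched v
  have hxy : ∀ v w, G.Adj (x v) (y (π w)) ↔ v = w := by
    intro v w
    rw [← hMadj]
    refine ⟨fun h6 => ?_, fun h6 => h6.adj_sub⟩
    by_contra h7
    rcases (h.union _ _).1 ⟨h6, h7⟩ with h8 | h8
    · exact hnot _ h8.snd_mem (hym _)
    · exact hnot _ (hxm _) h8.fst_mem
  have hadj : ∀ i v j w, G.Adj (Q (i, v)) (Q (j, w)) ↔
      (i = j ∧ (sigma π i v = w ∨ sigma π i w = v)) ∨ (i ≠ j ∧ v = w) := by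
    intro i v j w
    cases i <;> cases j
    · rw [Q2, Q2]
      have h5 : G.Adj (y (π v)) (y (π w)) ↔ C₂.Adj (y (π v)) (y (π w)) :=
        ⟨fun h6 => h.chordless₂ (hym _) (hym _) h6, fun h6 => h6.adj_sub⟩
      rw [h5, hy, sigma_false, sigma_false, Equiv.symm_apply_eq, Equiv.symm_apply_eq]
      simp
    · rw [Q2, Q1, G.adj_comm, hxy]
      simp [eq_comm]
    · rw [Q1, Q2, hxy]
      simp
    · rw [Q1, Q1]
      have h5 : G.Adj (x v) (x w) ↔ C₁.Adj (x v) (x w) :=
        ⟨fun h6 => h.chordless₁ (hxm _) (hxm _) h6, fun h6 => h6.adj_sub⟩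
      rw [h5, hx, sigma_true, sigma_true]
      simp
  have hinv : ∀ a, Q (e.symm a) = a := fun a => by rw [← he]; exact e.apply_symm_apply a
  refine ⟨e.symm, hσ2, ?_, ?_, ?_⟩
  · intro a b
    have h6 := hadj (e.symm a).1 (e.symm a).2 (e.symm b).1 (e.symm b).2
    rw [Prod.mk.eta, Prod.mk.eta, hinv, hinv] at h6
    exact h6
  · intro a b hab hPab
    obtain ⟨⟨i, v⟩, rfl⟩ := hQ.2 a
    obtain ⟨⟨j, w⟩, rfl⟩ := hQ.2 b
    have h7 : ∀ a, e.symm (Q a) = a := fun a => by rw [← he]; exact e.symm_apply_apply a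
    rw [h7, h7] at hPab
    simp only at hPab
    subst hPab
    unfold weight
    rw [if_neg]
    rw [SimpleGraph.Subgraph.mem_edgeSet]
    cases i
    · exact ((h.union _ _).2 (Or.inr (h.chordless₂ (hym _) (hym _) hab))).2
    · exact ((h.union _ _).2 (Or.inl (h.chordless₁ (hxm _) (hxm _) hab))).2
  · intro a b hab hPab
    obtain ⟨⟨i, v⟩, rfl⟩ := hQ.2 a
    obtain ⟨⟨j, w⟩, rfl⟩ := hQ.2 b
    have h7 : ∀ a, e.symm (Q a) = a := fun a => by rw [← he]; exact e.symm_apply_apply a
    rw [h7, h7] at hPab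
    simp only at hPab
    unfold weight
    rw [if_pos]
    rw [SimpleGraph.Subgraph.mem_edgeSet]
    rw [hadj] at hab
    have hvw : v = w := by tauto
    subst hvw
    cases i <;> cases j
    · exact absurd rfl hPab
    · exact ((hMadj v v).2 rfl).symm
    · exact (hMadj v v).2 rfl
    · exact absurd rfl hPab

/-- The restricted alternating cycle sums of a critical contra pair. -/
theorem critical_sums [Finite W] (M C₁ C₂ : G.Subgraph)
    (h : IsPermutationGraph G M C₁ C₂) {n : ℕ} [NeZero n] (x y : Fin n → W)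
    (π : Equiv.Perm (Fin n)) (hlab : IsLabelling M C₁ C₂ x y π)
    (hcov : ¬ HasFaithfulCircuitCover G (weight M))
    (hrem : ∀ C : G.Subgraph, ¬ IsRemovable (weight M) C) (i : Fin n) :
    ∃ a b : ℕ, Even a ∧ 2 ≤ a ∧ Odd b ∧ 2 * a < n ∧ 2 * b < n ∧
      altSumAvoid (sigma π) i = 2 * (3 ^ b - 3 ^ a) := by
  obtain ⟨e, hG⟩ := cubSys_of_labelling M C₁ C₂ h x y π hlab
  obtain ⟨hn, -, -⟩ := contra_conditions M C₁ C₂ h x y π hlab hcov
  have hstr : ∀ T, Full (sigma π) i T → Straight (sigma π) i T := by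
    intro T hT
    by_contra hst
    exact hcov (cover_of_not_straight hG hT hst)
  have hcard : Fintype.card (Fin n) % 4 = 1 := by rw [Fintype.card_fin]; exact hn
  obtain ⟨a, b, ha, ha0, hb, ha4, hb4, hab⟩ := altSumAvoid_value (x₀ := i) (sigma_trans π)
    hG.ne hstr (fun T hT => sep_contra hG hT (hstr T hT) hrem) hcard
  rw [Fintype.card_fin] at ha4 hb4
  refine ⟨a, b, ha, ?_, hb, by omega, by omega, hab⟩
  obtain ⟨k, hk⟩ := ha
  omega

end Gd16
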