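import Pool.Agent.K7.H16.Gd.Contra

/-!
# Critical contra pairs: every curve avoiding `x₀` separates
-/

set_option autoImplicit false
set_option linter.unusedSectionVars false

namespace Gd16

open Contra2

variable {V W : Type*} [DecidableEq V] {σ : Bool → Equiv.Perm V} {G : SimpleGraph W}
    {w : Sym2 W → ℕ} {e : W ≃ Bool × V} {x₀ : V} {T : {v // v ≠ x₀} → Tr}

lemma dadj_unique (hG : CubSys σ G w e) {q j : Mem σ x₀ T} {a b : W} (h : (e a).1 = (e b).1)
    (h1 : DAdj e σ x₀ T q a b) (h2 : DAdj e σ x₀ T j a b) : q = j := by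
  rw [dadj_same h] at h1 h2
  obtain ⟨d, hd1, hd2⟩ := h1
  obtain ⟨d', hd1', hd2'⟩ := h2
  have := eps_inj hG _ _ d d' (hd1.trans hd1'.symm)
  subst this
  exact hd2.symm.trans hd2'

/-- The position of a half-edge. -/
def pos (e : W ≃ Bool × V) (h : HE V) : W := e.symm (h.2.1, h.1)

theorem sep_contra [Finite V] [Finite W] (hG : CubSys σ G w e) (hT : Full σ x₀ T)
    (hst : Straight σ x₀ T) (hrem : ∀ C : G.Subgraph, ¬ IsRemovable w C) : Sep σ x₀ T := by
  classical
  intro q hq
  obtain ⟨C, hCdef⟩ : ∃ C, C = DSub hG q := ⟨_, rfl⟩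
  have hmemC : ∀ a b, s(a, b) ∈ C.edgeSet ↔ DAdj e σ x₀ T q a b := by
    intro a b
    rw [hCdef]
    exact Iff.rfl
  obtain ⟨w₁, hw₁⟩ : ∃ w₁, w₁ = subWeight w C := ⟨_, rfl⟩
  have hw₁in : ∀ a b, DAdj e σ x₀ T q a b → w₁ s(a, b) = w s(a, b) - 1 := by
    intro a b h
    rw [hw₁, subWeight, if_pos ((hmemC a b).2 h)]
  have hw₁out : ∀ a b, ¬ DAdj e σ x₀ T q a b → w₁ s(a, b) = w s(a, b) := by
    intro a b h
    rw [hw₁, subWeight, if_neg (fun h' => h ((hmemC a b).1 h'))]
  obtain ⟨G₁, hG₁⟩ : ∃ G₁, G₁ = supportGraph G w₁ := ⟨_, rfl⟩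
  have hadj₁ : ∀ a b, G₁.Adj a b ↔
      G.Adj a b ∧ ¬ ((e a).1 = (e b).1 ∧ DAdj e σ x₀ T q a b) := by
    intro a b
    rw [hG₁, supportGraph, SimpleGraph.deleteEdges_adj, Set.mem_ofPred_eq]
    refine and_congr_right fun hab => not_congr ?_
    by_cases hs : (e a).1 = (e b).1
    · have h1 := hG.one a b hab hs
      by_cases hD : DAdj e σ x₀ T q a b
      · rw [hw₁in a b hD, h1]; simp [hs, hD]
      · rw [hw₁out a b hD, h1]; simp [hs, hD]
    · have h1 := hG.twoW a b hab hs
      by_cases hD : DAdj e σ x₀ T q a b
      · rw [hw₁in a b hD, h1]; simp [hs]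
      · rw [hw₁out a b hD, h1]; simp [hs]
  have hle : ∀ j, j ≠ q → Dg hG j ≤ G₁ := by
    intro j hj a b hab
    rw [hadj₁]
    refine ⟨dg_le hG j hab, ?_⟩
    rintro ⟨h1, h2⟩
    exact hj (dadj_unique hG h1 hab h2)
  -- curves through the ends
  have hqv : ∀ v, (∃ p, mk σ x₀ T (v, p) = q) → v ≠ x₀ := by
    rintro v ⟨p, hp⟩ rfl
    exact hq p hp
  have hcase : ∀ v, v ≠ x₀ → ∀ p, mk σ x₀ T (v, p) = mk σ x₀ T (v, true, true) ∨
        mk σ x₀ T (v, p) = mk σ x₀ T (v, true, false) := by
    intro v hv
    rintro ⟨i, d⟩
    cases i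
    · rcases hT.tau_false hv with h | h
      · cases d
        · right; exact h false
        · left; exact h true
      · cases d
        · left; exact h true
        · right; exact h false
    · cases d
      · right; rfl
      · left; rfl
  have hother : ∀ v, v ≠ x₀ → ∃ p, mk σ x₀ T (v, p) ≠ q := by
    intro v hv
    by_cases h : mk σ x₀ T (v, true, true) = q
    · exact ⟨(true, false), fun h' => hT v hv (h.trans h'.symm)⟩
    · exact ⟨_, h⟩
  -- every edge but the matching edge `x₀` is on another curve
  have hcov : ∀ a b, G₁.Adj a b → ((e a).1 = (e b).1 ∨ (e a).2 ≠ x₀) →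
      ∃ j, j ≠ q ∧ DAdj e σ x₀ T j a b := by
    intro a b hab hor
    rw [hadj₁] at hab
    by_cases hs : (e a).1 = (e b).1
    · obtain ⟨hab1, hab2⟩ := hab
      rw [hG.adj] at hab1
      have h1 : σ (e a).1 (e a).2 = (e b).2 ∨ σ (e a).1 (e b).2 = (e a).2 := by tauto
      rcases h1 with h1 | h1
      · refine ⟨mk σ x₀ T ((e a).2, (e a).1, true), ?_, Or.inl ⟨hs, Or.inl ⟨h1, rfl⟩⟩⟩
        intro h2
        exact hab2 ⟨hs, Or.inl ⟨hs, Or.inl ⟨h1, h2⟩⟩⟩
      · refine ⟨mk σ x₀ T ((e b).2, (e a).1, true), ?_, Or.inl ⟨hs, Or.inr ⟨h1, rfl⟩⟩⟩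
        intro h2
        exact hab2 ⟨hs, Or.inl ⟨hs, Or.inr ⟨h1, h2⟩⟩⟩
    · have hv : (e a).2 ≠ x₀ := by tauto
      obtain ⟨p, hp⟩ := hother _ hv
      refine ⟨_, hp, Or.inr ⟨hs, ?_, hv, p, rfl⟩⟩
      have := (hG.adj a b).1 hab.1
      tauto
  have hnobr : ∀ a b, G₁.Adj a b → ((e a).1 = (e b).1 ∨ (e a).2 ≠ x₀) →
      (G₁.deleteEdges {s(a, b)}).Reachable a b := by
    intro a b hab hor
    obtain ⟨j, hj, hD⟩ := hcov a b hab hor
    have h1 := SimpleGraph.IsCycles.reachable_deleteEdges (G := Dg hG j) hD
      (dg_cycles hG hT hst j)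
    exact h1.mono (SimpleGraph.deleteEdges_mono (hle j hj))
  obtain ⟨α, hα⟩ : ∃ α, α = e.symm (true, x₀) := ⟨_, rfl⟩
  obtain ⟨β, hβ⟩ : ∃ β, β = e.symm (false, x₀) := ⟨_, rfl⟩
  have hbr : ¬ (G₁.deleteEdges {s(α, β)}).Reachable α β := by
    intro hreach
    apply hrem C
    rw [hCdef]
    refine ⟨dsub_circuit hG hT hst q hq, ?_, ?_, ?_⟩
    · intro f hf
      induction f using Sym2.ind with
      | _ a b =>
      have hab : G.Adj a b := (DSub hG q).edgeSet_subset hf
      by_cases hs : (e a).1 = (e b).1
      · rw [hG.one a b hab hs]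
      · rw [hG.twoW a b hab hs]; norm_num
    · rw [← hCdef, ← hw₁, ← hG₁]
      intro a
      have hset : {u | G₁.Adj a u ∧ Odd (w₁ s(a, u))}.ncard = 2 := by
        by_cases hvq : ∃ p, mk σ x₀ T ((e a).2, p) = q
        · have hv := hqv _ hvq
          obtain ⟨p', hp'⟩ := hother _ hv
          have hotherq : ∀ p, mk σ x₀ T ((e a).2, p) ≠ q →
              mk σ x₀ T ((e a).2, p) = mk σ x₀ T ((e a).2, p') := by
            intro p hp
            obtain ⟨r, hr⟩ := hvq
            rcases hcase _ hv p with h1 | h1 <;> rcases hcase _ hv p' with h2 | h2 <;>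
              rcases hcase _ hv r with h3 | h3
            · rw [h1, h2]
            · rw [h1, h2]
            · exact absurd (h1.trans (h3.symm.trans hr)) hp
            · exact absurd (h2.trans (h3.symm.trans hr)) hp'
            · exact absurd (h2.trans (h3.symm.trans hr)) hp'
            · exact absurd (h1.trans (h3.symm.trans hr)) hp
            · rw [h1, h2]
            · rw [h1, h2]
          rw [← dg_degree hG hT hst _ a (Or.inl ⟨hv, p', rfl⟩)]
          congr 1
          ext u
          rw [Set.mem_ofPred_eq, SimpleGraph.mem_neighborSet, dg_adj]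
          constructor
          · rintro ⟨h1, -⟩
            obtain ⟨j, hj, hD⟩ := hcov a u h1 (Or.inr hv)
            by_cases hs : (e a).1 = (e u).1
            · have hD' := hD
              rw [dadj_same hs] at hD'
              obtain ⟨d, -, hd⟩ := hD'
              have h2 := hotherq ((e a).1, d) (by rw [hd]; exact hj)
              rw [hd] at h2
              rw [← h2]; exact hD
            · rcases hD with ⟨h2, -⟩ | ⟨h2, h3, h4, h5⟩
              · exact absurd h2 hs
              · exact Or.inr ⟨h2, h3, h4, p', rfl⟩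
          · intro hD
            have h1 := hle _ hp' hD
            refine ⟨h1, ?_⟩
            by_cases hs : (e a).1 = (e u).1
            · rw [hw₁out a u (fun h => hp' (dadj_unique hG hs hD h)),
                hG.one a u (dg_le hG _ hD) hs]
              exact odd_one
            · have hDq : DAdj e σ x₀ T q a u := by
                rcases hD with ⟨h2, -⟩ | ⟨h2, h3, h4, h5⟩
                · exact absurd h2 hs
                · exact Or.inr ⟨h2, h3, h4, hvq⟩
              rw [hw₁in a u hDq, hG.twoW a u (dg_le hG _ hD) hs]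
              exact odd_one
        · have hset' : {u | G₁.Adj a u ∧ Odd (w₁ s(a, u))} =
              {e.symm ((e a).1, σ (e a).1 (e a).2),
                e.symm ((e a).1, (σ (e a).1).symm (e a).2)} := by
            have hnD : ∀ u, ¬ DAdj e σ x₀ T q a u := by
              intro u hD
              have : a ∈ (DSub hG q).verts := (DSub hG q).edge_vert hD
              exact hvq this
            ext u
            rw [Set.mem_ofPred_eq, Set.mem_insert_iff, Set.mem_singleton_iff, hadj₁,
              hw₁out a u (hnD u), Equiv.eq_symm_apply, Equiv.eq_symm_apply]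
            constructor
            · rintro ⟨⟨h1, -⟩, h2⟩
              by_cases hs : (e a).1 = (e u).1
              · rw [hG.adj] at h1
                have h3 : σ (e a).1 (e a).2 = (e u).2 ∨ σ (e a).1 (e u).2 = (e a).2 := by
                  tauto
                rcases h3 with h3 | h3
                · left; exact Prod.ext hs.symm h3.symm
                · right
                  refine Prod.ext hs.symm ?_
                  rw [← h3]; simp
              · rw [hG.twoW a u h1 hs] at h2
                exact absurd h2 (by decide)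
            · intro h1
              have hs : (e a).1 = (e u).1 := by
                rcases h1 with h1 | h1 <;> rw [h1]
              have h2 : G.Adj a u := by
                rw [hG.adj]
                left
                refine ⟨hs, ?_⟩
                rcases h1 with h1 | h1
                · left; rw [h1]
                · right; rw [h1]; simp
              refine ⟨⟨h2, fun h => hnD u h.2⟩, ?_⟩
              rw [hG.one a u h2 hs]
              exact odd_one
          rw [hset', Set.ncard_pair]
          intro h1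
          have h2 := congrArg Prod.snd (e.symm.injective h1)
          simp only at h2
          apply hG.two (e a).1 ((σ (e a).1).symm (e a).2)
          rw [Equiv.apply_symm_apply, h2]
      rw [hset]
      exact even_two
    · rw [← hCdef, ← hw₁, ← hG₁]
      intro a b hab
      by_cases hor : (e a).1 = (e b).1 ∨ (e a).2 ≠ x₀
      · exact hnobr a b hab hor
      · push Not at hor
        have h1 := (hG.adj a b).1 ((hadj₁ a b).1 hab).1
        have h2 : (e a).2 = (e b).2 := by tauto
        rcases ha : (e a).1 with _ | _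
        · have hb : (e b).1 = true := by
            have := hor.1
            rw [ha] at this
            revert this
            cases (e b).1 <;> simp
          have ea : a = β := by
            rw [hβ, Equiv.eq_symm_apply]
            exact Prod.ext ha hor.2
          have eb : b = α := by
            rw [hα, Equiv.eq_symm_apply]
            exact Prod.ext hb (h2.symm.trans hor.2)
          rw [ea, eb, Sym2.eq_swap]
          exact hreach.symm
        · have hb : (e b).1 = false := by
            have := hor.1
            rw [ha] at this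
            revert this
            cases (e b).1 <;> simp
          have ea : a = α := by
            rw [hα, Equiv.eq_symm_apply]
            exact Prod.ext ha hor.2
          have eb : b = β := by
            rw [hβ, Equiv.eq_symm_apply]
            exact Prod.ext hb (h2.symm.trans hor.2)
          rw [ea, eb]
          exact hreach
  obtain ⟨G₂, hG₂⟩ : ∃ G₂, G₂ = G₁.deleteEdges {s(α, β)} := ⟨_, rfl⟩
  rw [← hG₂] at hbr
  have heα : e α = (true, x₀) := by rw [hα]; simp
  have heβ : e β = (false, x₀) := by rw [hβ]; simp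
  have hadj₂ : ∀ a b, G₁.Adj a b → ((e a).1 = (e b).1 ∨ (e a).2 ≠ x₀) → G₂.Adj a b := by
    intro a b hab hor
    rw [hG₂, SimpleGraph.deleteEdges_adj, Set.mem_singleton_iff]
    refine ⟨hab, fun h => ?_⟩
    rcases Sym2.eq_iff.1 h with ⟨h1, h2⟩ | ⟨h1, h2⟩
    · rw [h1, h2, heα, heβ] at hor
      simp at hor
    · rw [h1, h2, heα, heβ] at hor
      simp at hor
  have hmat : ∀ v, v ≠ x₀ → ∀ p r : Bool × Bool,
      G₂.Reachable (pos e (v, p)) (pos e (v, r)) := by
    intro v hv p r
    by_cases hpr : p.1 = r.1
    · have : pos e (v, p) = pos e (v, r) := by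
        show e.symm (p.1, v) = e.symm (r.1, v)
        rw [hpr]
      rw [this]
    · apply SimpleGraph.Adj.reachable
      apply hadj₂
      · rw [hadj₁, hG.adj]
        simp only [pos, Equiv.apply_symm_apply]
        tauto
      · right
        simp only [pos, Equiv.apply_symm_apply]
        exact hv
  have key : ∀ a b : HE V, Relation.EqvGen (rel σ x₀ T) a b → mk σ x₀ T a ≠ q →
      G₂.Reachable (pos e a) (pos e b) := by
    intro a b hab
    induction hab with
    | rel x y h =>
      intro hx
      rcases h with h | h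
      · apply SimpleGraph.Adj.reachable
        have h1 : y.2.1 = x.2.1 := by
          rw [h]
          obtain ⟨v, i, d⟩ := x
          cases d
          · rw [eps_in]
          · rw [eps_out]
        have hs : (e (pos e x)).1 = (e (pos e y)).1 := by
          simp only [pos, Equiv.apply_symm_apply]
          exact h1.symm
        apply hadj₂
        · have hD : DAdj e σ x₀ T (mk σ x₀ T x) (pos e x) (pos e y) := by
            rw [dadj_same hs]
            refine ⟨x.2.2, ?_, ?_⟩
            · simp only [pos, Equiv.apply_symm_apply]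
              rw [h]
            · simp only [pos, Equiv.apply_symm_apply]
          exact hle _ hx hD
        · exact Or.inl hs
      · obtain ⟨v, p⟩ := x
        by_cases hv : v ≠ x₀
        · rw [tau_ne T hv] at h
          subst h
          exact hmat v hv _ _
        · push Not at hv
          subst hv
          rw [tau_self] at h
          rw [h]
    | refl x => intro _; exact SimpleGraph.Reachable.refl _
    | symm x y hxy ih =>
      intro hy
      have : mk σ x₀ T x = mk σ x₀ T y := (mk_eq_iff σ x₀ T x y).2 hxy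
      exact (ih (by rw [this]; exact hy)).symm
    | trans x y z hxy _ ih1 ih2 =>
      intro hx
      have : mk σ x₀ T x = mk σ x₀ T y := (mk_eq_iff σ x₀ T x y).2 hxy
      exact (ih1 hx).trans (ih2 (by rw [← this]; exact hx))
  have key' : ∀ a b : HE V, mk σ x₀ T a = mk σ x₀ T b → mk σ x₀ T a ≠ q →
      G₂.Reachable (pos e a) (pos e b) := fun a b hab =>
    key a b ((mk_eq_iff σ x₀ T a b).1 hab)
  have hpα : pos e (x₀, true, true) = α := by rw [hα]; rfl
  have hpβ : pos e (x₀, false, true) = β := by rw [hβ]; rfl
  refine ⟨{j | j ≠ q ∧ ∀ h, mk σ x₀ T h = j → G₂.Reachable α (pos e h)},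
    {j | j ≠ q ∧ ∀ h, mk σ x₀ T h = j → ¬ G₂.Reachable α (pos e h)}, ?_, ?_, ?_, ?_⟩
  · refine ⟨fun h => hq _ h, fun h hh => ?_⟩
    rw [← hpα]
    exact key' _ _ hh.symm (fun h => hq _ h)
  · refine ⟨fun h => hq _ h, fun h hh hr => ?_⟩
    apply hbr
    refine hr.trans ?_
    rw [← hpβ]
    refine key' _ _ hh ?_
    rw [hh]
    exact fun h => hq _ h
  · intro j
    by_cases hj : j = q
    · exact Or.inl hj
    · right
      obtain ⟨h₀, hh₀⟩ := mk_surj σ x₀ T j
      by_cases hr : G₂.Reachable α (pos e h₀)
      · left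
        refine ⟨hj, fun h hh => hr.trans ?_⟩
        apply key' _ _ (hh₀.trans hh.symm)
        rw [hh₀]; exact hj
      · right
        refine ⟨hj, fun h hh hr' => hr (hr'.trans ?_)⟩
        apply key' _ _ (hh.trans hh₀.symm)
        rw [hh]; exact hj
  · rintro s ⟨-, hs⟩ s' ⟨-, hs'⟩ v hv ⟨p, hp⟩ ⟨p', hp'⟩
    exact hs' _ hp' ((hs _ hp).trans (hmat v hv p p'))

end Gd16
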