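import Pool.Agent.K7.H16.Gd.Phase

/-!
# Counting the colourings of a chain of curves
-/

set_option autoImplicit false
set_option linter.unusedSectionVars false

namespace Gd16

open Goddyn Contra2 Finset

/-- Proper colourings of a path. -/
def PC (q a : ℕ) [NeZero q] : Finset (Fin (a + 1) → ZMod q) :=
  Finset.univ.filter (fun g => ∀ k : Fin a, g k.castSucc ≠ g k.succ)

lemma card_PC (q a : ℕ) [NeZero q] : (PC q a).card = q * (q - 1) ^ a := by
  induction a with
  | zero =>
    have h1 : PC q 0 = Finset.univ := by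
      ext g
      simp only [PC, mem_filter, mem_univ, true_and, iff_true]
      intro k
      exact k.elim0
    rw [h1, Finset.card_univ, Fintype.card_fun, ZMod.card]
    simp
  | succ a ih =>
    have h1 : (PC q (a + 1)).card = ∑ g ∈ PC q a, (Finset.univ.filter (fun z => z ≠ g 0)).card := by
      rw [← Finset.card_sigma]
      symm
      apply Finset.card_bij' (fun (z : Σ _ : Fin (a + 1) → ZMod q, ZMod q) _ =>
          (Fin.cons z.2 z.1 : Fin (a + 1 + 1) → ZMod q))
        (fun (g : Fin (a + 1 + 1) → ZMod q) _ => ⟨Fin.tail g, g 0⟩)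
      · rintro ⟨g, z⟩ hg
        simp only [PC, mem_sigma, mem_filter, mem_univ, true_and] at hg ⊢
        intro k
        refine Fin.cases ?_ (fun j => ?_) k
        · rw [Fin.castSucc_zero, Fin.cons_zero, Fin.cons_succ]
          exact hg.2
        · rw [← Fin.succ_castSucc, Fin.cons_succ, Fin.cons_succ]
          exact hg.1 j
      · intro g hg
        simp only [PC, mem_sigma, mem_filter, mem_univ, true_and] at hg ⊢
        refine ⟨fun k => ?_, ?_⟩
        · have := hg k.succ
          rw [← Fin.succ_castSucc] at this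
          exact this
        · exact hg 0
      · rintro ⟨g, z⟩ _
        simp
      · intro g _
        simp
    rw [h1]
    have h2 : ∀ g ∈ PC q a, (Finset.univ.filter (fun z => z ≠ g 0)).card = q - 1 := by
      intro g _
      rw [Finset.filter_ne', Finset.card_erase_of_mem (Finset.mem_univ _), Finset.card_univ,
        ZMod.card]
    rw [Finset.sum_congr rfl h2, Finset.sum_const, ih, smul_eq_mul, pow_succ]
    ring

variable {V : Type*} [DecidableEq V] [Fintype V] {σ : Bool → Equiv.Perm V} {x₀ : V}

open Classical in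
/-- The colourings that are compatible with `T` and proper away from `x₀`. -/
noncomputable def CC (q : ℕ) [NeZero q] (σ : Bool → Equiv.Perm V) (x₀ : V)
    (T : {v // v ≠ x₀} → Tr) : Finset (HE V → ZMod q) :=
  Finset.univ.filter (fun f => (∀ h, f (eps σ h) = f h) ∧ (∀ h, f (tau x₀ T h) = f h) ∧
    ∀ v, v ≠ x₀ → f (v, true, true) ≠ f (v, true, false))

theorem card_CC (q : ℕ) [NeZero q] {T : {v // v ≠ x₀} → Tr} (hT : Full σ x₀ T) {a : ℕ}
    {idx : Mem σ x₀ T → ℕ} (h3 : ∀ i, idx i ≤ a) (h4 : Function.Injective idx)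
    (h5 : ∀ k ≤ a, ∃ i, idx i = k)
    (h6 : ∀ v, v ≠ x₀ → idx (mk σ x₀ T (v, true, true)) = idx (mk σ x₀ T (v, true, false)) + 1 ∨
      idx (mk σ x₀ T (v, true, false)) = idx (mk σ x₀ T (v, true, true)) + 1)
    (h7 : ∀ i j, idx j = idx i + 1 → ∃ v, v ≠ x₀ ∧ (∃ p, mk σ x₀ T (v, p) = i) ∧
        ∃ p, mk σ x₀ T (v, p) = j) :
    (CC q σ x₀ T).card = q * (q - 1) ^ a := by
  classical
  rw [← card_PC]
  symm
  have hnem : Nonempty (Mem σ x₀ T) := ⟨mk σ x₀ T (x₀, true, true)⟩
  choose! r hr using h5
  have hrep : ∀ m : Mem σ x₀ T, ∃ h, mk σ x₀ T h = m := mk_surj σ x₀ T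
  choose rep hrep' using hrep
  have hir : ∀ m, r (idx m) = m := fun m => h4 (hr _ (h3 m))
  have hlt : ∀ m, idx m < a + 1 := fun m => Nat.lt_succ_of_le (h3 m)
  apply Finset.card_bij' (fun (g : Fin (a + 1) → ZMod q) _ =>
      (fun h : HE V => g ⟨idx (mk σ x₀ T h), hlt _⟩))
    (fun (f : HE V → ZMod q) _ => (fun k : Fin (a + 1) => f (rep (r k.1))))
  · intro g hg
    simp only [PC, mem_filter, mem_univ, true_and] at hg
    simp only [CC, mem_filter, mem_univ, true_and]
    refine ⟨fun h => ?_, fun h => ?_, fun v hv => ?_⟩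
    · simp only [mk_eps]
    · simp only [mk_tau]
    · rcases h6 v hv with h | h
      · have hk : idx (mk σ x₀ T (v, true, false)) < a := by
          have := hlt (mk σ x₀ T (v, true, true)); omega
        have h8 := hg ⟨_, hk⟩
        have e1 : (⟨idx (mk σ x₀ T (v, true, true)), hlt _⟩ : Fin (a + 1)) =
            Fin.succ ⟨idx (mk σ x₀ T (v, true, false)), hk⟩ := Fin.ext h
        rw [e1]
        exact h8.symm
      · have hk : idx (mk σ x₀ T (v, true, true)) < a := by
          have := hlt (mk σ x₀ T (v, true, false)); omega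
        have h8 := hg ⟨_, hk⟩
        have e1 : (⟨idx (mk σ x₀ T (v, true, false)), hlt _⟩ : Fin (a + 1)) =
            Fin.succ ⟨idx (mk σ x₀ T (v, true, true)), hk⟩ := Fin.ext h
        rw [e1]
        exact h8
  · intro f hf
    simp only [CC, mem_filter, mem_univ, true_and] at hf
    obtain ⟨hf1, hf2, hf3⟩ := hf
    have hconst : ∀ x y, mk σ x₀ T x = mk σ x₀ T y → f x = f y := fun x y hxy =>
      eq_of_mk_eq σ x₀ T f hf1 hf2 hxy
    simp only [PC, mem_filter, mem_univ, true_and]
    intro k
    have hk1 : idx (r k.castSucc.1) = k.1 := hr _ (le_of_lt k.2)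
    have hk2 : idx (r k.succ.1) = k.1 + 1 := by
      exact hr _ k.2
    obtain ⟨v, hv, ⟨p, hp⟩, p', hp'⟩ := h7 (r k.castSucc.1) (r k.succ.1) (by rw [hk1, hk2])
    rw [hconst _ _ ((hrep' _).trans hp.symm), hconst _ _ ((hrep' _).trans hp'.symm)]
    have hne : mk σ x₀ T (v, p) ≠ mk σ x₀ T (v, p') := by
      rw [hp, hp']
      intro h
      rw [h] at hk1
      omega
    -- every member at `v` is that of `(v, true, true)` or of `(v, true, false)`
    have hcase : ∀ p, mk σ x₀ T (v, p) = mk σ x₀ T (v, true, true) ∨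
        mk σ x₀ T (v, p) = mk σ x₀ T (v, true, false) := by
      rintro ⟨i, d⟩
      cases i
      · rcases hT.tau_false hv with h | h
        · cases d
          · right; exact h false
          · left; exact h true
        · cases d
          · left; exact h true
          · right; exact h false
      · cases d
        · right; rfl
        · left; rfl
    rcases hcase p with h | h <;> rcases hcase p' with h' | h'
    · exact absurd (h.trans h'.symm) hne
    · rw [hconst _ _ h, hconst _ _ h']; exact hf3 v hv
    · rw [hconst _ _ h, hconst _ _ h']; exact (hf3 v hv).symm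
    · exact absurd (h.trans h'.symm) hne
  · intro g _
    funext k
    simp only
    congr 1
    apply Fin.ext
    simp only
    rw [hrep', hr _ (by omega)]
  · intro f hf
    simp only [CC, mem_filter, mem_univ, true_and] at hf
    obtain ⟨hf1, hf2, hf3⟩ := hf
    funext h
    simp only
    rw [hir]
    exact eq_of_mk_eq σ x₀ T f hf1 hf2 (hrep' _)

end Gd16
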