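import Pool.Agent.K7.H16.Gd.Count
import Pool.Agent.Helper310.Contra2.Eval

/-!
# The alternating cycle sum over the sets avoiding a vertex
-/

set_option autoImplicit false
set_option linter.unusedSectionVars false

namespace Gd16

open Goddyn Contra2 Finset

variable {V : Type*} [DecidableEq V] [Fintype V] (σ : Bool → Equiv.Perm V) (x₀ : V)

/-- The alternating cycle sum restricted to the sets `U` that avoid `x₀`. -/
noncomputable def altSumAvoid : ℤ :=
  ∑ U ∈ Finset.univ.filter (fun U : Finset V => x₀ ∉ U), 2 ^ U.card * (-2) ^ ncyc (theta σ U)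

/-- Weights, straight ahead at `x₀`. -/
def cx (v : V) (t : Tr) : ℤ := if v = x₀ then (if t = .X then 1 else 0) else cW V v t

/-- Shifted weights, straight ahead at `x₀`. -/
def cx' (v : V) (t : Tr) : ℤ := if v = x₀ then (if t = .X then 1 else 0) else cW V v t + 1

variable (q : ℕ) [NeZero q]

lemma F_cx_shift : ((q : ℤ) + 2) ∣ F q σ (cx' x₀) - F q σ (cx x₀) := by
  classical
  have key : ∀ S : Finset V, x₀ ∉ S → ((q : ℤ) + 2) ∣
      F q σ (fun v t => if v ∈ S then cx x₀ v t + 1 else cx x₀ v t) - F q σ (cx x₀) := by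
    intro S
    induction S using Finset.induction_on with
    | empty =>
      intro _
      have : (fun v t => if v ∈ (∅ : Finset V) then cx x₀ v t + 1 else cx x₀ v t) = cx x₀ := by
        funext v t; simp
      rw [this, sub_self]
      exact dvd_zero _
    | insert u S hu ih =>
      intro hx
      rw [Finset.mem_insert, not_or] at hx
      have h1 := F_update q σ (fun v t => if v ∈ S then cx x₀ v t + 1 else cx x₀ v t)
        (fun v t => if v ∈ insert u S then cx x₀ v t + 1 else cx x₀ v t) u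
        (fun v hv => by funext t; simp [hv]) (fun t => by simp [hu])
      have := dvd_add h1 (ih hx.2)
      rwa [sub_add_sub_cancel] at this
  have h2 := key (Finset.univ.erase x₀) (by simp)
  have h3 : (fun v t => if v ∈ Finset.univ.erase x₀ then cx x₀ v t + 1 else cx x₀ v t) =
      cx' x₀ := by
    funext v t
    by_cases hv : v = x₀ <;> simp [cx, cx', hv]
  rwa [h3] at h2

lemma F_cx' : F q σ (cx' x₀) =
    ∑ U ∈ Finset.univ.filter (fun U : Finset V => x₀ ∉ U),
      2 ^ U.card * (q : ℤ) ^ ncyc (theta σ U) := by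
  classical
  unfold F
  have h2 : ∀ f : HE V → ZMod q, ∏ v, ∑ t, cx' x₀ v t * ind t v f =
      ∑ U : Finset V, (if x₀ ∉ U then 2 ^ U.card else 0) *
        ∏ v, ind (if v ∈ U then .Z else .X) v f := by
    intro f
    have h3 : ∀ v : V, ∑ t, cx' x₀ v t * ind t v f =
        (if v = x₀ then 0 else 2) * ind .Z v f + ind .X v f := by
      intro v
      rw [sum_Tr]
      by_cases hv : v = x₀
      · simp [cx', hv]
      · simp only [cx', cW, hv, if_false]; ring
    rw [Finset.prod_congr rfl (fun v _ => h3 v), Fintype.prod_add]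
    apply Finset.sum_congr rfl
    intro U _
    rw [Finset.prod_mul_distrib, mul_assoc]
    have h4 : ∏ i ∈ U, (if i = x₀ then (0 : ℤ) else 2) = if x₀ ∉ U then 2 ^ U.card else 0 := by
      by_cases hx : x₀ ∈ U
      · rw [if_neg (by simpa using hx)]
        exact Finset.prod_eq_zero hx (by simp)
      · rw [if_pos hx, ← Finset.prod_const]
        apply Finset.prod_congr rfl
        intro i hi
        rw [if_neg]
        rintro rfl
        exact hx hi
    rw [h4]
    congr 1
    rw [← Finset.prod_mul_prod_compl U]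
    congr 1
    · apply Finset.prod_congr rfl
      intro v hv
      simp [hv]
    · apply Finset.prod_congr rfl
      intro v hv
      have : v ∉ U := by simpa using hv
      simp [this]
  rw [Finset.sum_congr rfl (fun f _ => h2 f), Finset.sum_comm, Finset.sum_filter]
  apply Finset.sum_congr rfl
  intro U _
  rw [← Finset.mul_sum, sum_prod_ind, Ncol_eq]
  by_cases hx : x₀ ∉ U
  · rw [if_pos hx, if_pos hx]; push_cast; rfl
  · rw [if_neg hx, if_neg hx, zero_mul]

lemma F_cx_mod : ((q : ℤ) + 2) ∣ F q σ (cx x₀) - altSumAvoid σ x₀ := by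
  have h1 := F_cx_shift σ x₀ q
  rw [F_cx'] at h1
  have h2 : ((q : ℤ) + 2) ∣ (∑ U ∈ Finset.univ.filter (fun U : Finset V => x₀ ∉ U),
      2 ^ U.card * (q : ℤ) ^ ncyc (theta σ U)) - altSumAvoid σ x₀ := by
    unfold altSumAvoid
    rw [← Finset.sum_sub_distrib]
    apply Finset.dvd_sum
    intro U _
    rw [← mul_sub]
    apply Dvd.dvd.mul_left
    have := sub_dvd_pow_sub_pow (q : ℤ) (-2) (ncyc (theta σ U))
    rwa [sub_neg_eq_add] at this
  have h3 := dvd_sub h2 h1
  rwa [sub_sub_sub_cancel_left] at h3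

variable {σ x₀ q}

lemma con_X_iff {f : HE V → ZMod q} {v : V} : Con .X v f ↔
    ∀ i, f (v, i, false) = f (v, i, true) := by
  constructor
  · intro h i; exact h (i, true)
  · rintro h ⟨i, d⟩
    cases d
    · exact (h i).symm
    · exact h i

lemma con_Z_iff {f : HE V → ZMod q} {v : V} : Con .Z v f ↔
      f (v, true, true) = f (v, false, false) ∧ f (v, true, false) = f (v, false, true) := by
  constructor
  · intro h
    exact ⟨h (false, false), h (false, true)⟩
  · rintro ⟨h1, h2⟩ ⟨a, b⟩
    cases a <;> cases b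
    · exact h1
    · exact h2
    · exact h2.symm
    · exact h1.symm

lemma con_Y_iff {f : HE V → ZMod q} {v : V} : Con .Y v f ↔
      f (v, true, true) = f (v, false, true) ∧ f (v, true, false) = f (v, false, false) := by
  constructor
  · intro h
    exact ⟨h (false, true), h (false, false)⟩
  · rintro ⟨h1, h2⟩ ⟨a, b⟩
    cases a <;> cases b
    · exact h2
    · exact h1
    · exact h2.symm
    · exact h1.symm

lemma mem_CC {T : {v // v ≠ x₀} → Tr} {f : HE V → ZMod q} : f ∈ CC q σ x₀ T ↔
    (∀ h, f (eps σ h) = f h) ∧ (∀ h, f (tau x₀ T h) = f h) ∧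
      ∀ v, v ≠ x₀ → f (v, true, true) ≠ f (v, true, false) := by
  simp [CC]

/-- A compatible proper colouring forces the transitions to be full. -/
lemma full_of_mem_CC {T : {v // v ≠ x₀} → Tr} {f : HE V → ZMod q} (hf : f ∈ CC q σ x₀ T) :
    Full σ x₀ T := by
  rw [mem_CC] at hf
  intro v hv h
  exact hf.2.2 v hv (eq_of_mk_eq σ x₀ T f hf.1 hf.2.1 h)

/-- The sign of a transition. -/
def sg : Tr → ℤ
  | .X => 0
  | .Y => -1
  | .Z => 1

lemma prod_of_mem_CC {T : {v // v ≠ x₀} → Tr} {f : HE V → ZMod q} (hf : f ∈ CC q σ x₀ T)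
    (hst : Straight σ x₀ T) :
    ∏ v, ∑ t, cx x₀ v t * ind t v f = ∏ v, sg (T v) := by
  have hfull := full_of_mem_CC hf
  rw [mem_CC] at hf
  obtain ⟨h1, h2, h3⟩ := hf
  rw [Fintype.prod_eq_mul_prod_subtype_ne _ x₀]
  have h4 : ∑ t, cx x₀ x₀ t * ind t x₀ f = 1 := by
    rw [sum_Tr]
    have h5 : Con .X x₀ f := by
      rw [con_X_iff]
      intro i
      apply eq_of_mk_eq σ x₀ T f h1 h2
      cases i
      · rw [hst.facts.2.2.2, hst.facts.2.2.2]
      · rw [hst.facts.2.2.1, hst.facts.2.2.1]
    simp [cx, ind, h5]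
  rw [h4, one_mul]
  apply Finset.prod_congr rfl
  rintro ⟨v, hv⟩ _
  rw [sum_Tr]
  have h5 : Con (T ⟨v, hv⟩) v f := by
    intro p
    have := h2 (v, p)
    rwa [tau_ne T hv] at this
  have h6 := h3 v hv
  rcases hT : T ⟨v, hv⟩ with _ | _ | _
  · exact absurd hT (hfull.ne_X hv)
  · rw [hT] at h5
    have h7 : ¬ Con .Z v f := by
      rw [con_Z_iff]
      rw [con_Y_iff] at h5
      rintro ⟨h8, h9⟩
      exact h6 (h8.trans h5.2.symm)
    simp [cx, hv, cW, ind, h5, h7, sg]
  · rw [hT] at h5
    have h7 : ¬ Con .Y v f := by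
      rw [con_Y_iff]
      rw [con_Z_iff] at h5
      rintro ⟨h8, h9⟩
      exact h6 (h5.1.trans h9.symm)
    simp [cx, hv, cW, ind, h5, h7, sg]

/-- A colouring with non-zero weight is compatible with some transitions. -/
lemma exists_mem_CC {f : HE V → ZMod q} (hf : f ∈ Col q σ)
    (h0 : ∏ v, ∑ t, cx x₀ v t * ind t v f ≠ 0) : ∃ T, f ∈ CC q σ x₀ T := by
  classical
  simp only [Col, mem_filter, mem_univ, true_and] at hf
  rw [Finset.prod_ne_zero_iff] at h0
  have key : ∀ v, v ≠ x₀ → (Con .Z v f ∧ ¬ Con .Y v f) ∨ (Con .Y v f ∧ ¬ Con .Z v f) := by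
    intro v hv
    have := h0 v (Finset.mem_univ v)
    rw [sum_Tr] at this
    simp only [cx, hv, if_false, cW, ind] at this
    by_cases h1 : Con .Z v f <;> by_cases h2 : Con .Y v f <;> simp_all
  refine ⟨fun v => if Con .Z v.1 f then .Z else .Y, ?_⟩
  rw [mem_CC]
  refine ⟨hf, ?_, ?_⟩
  · rintro ⟨v, p⟩
    by_cases hv : v ≠ x₀
    · rw [tau_ne _ hv]
      by_cases h1 : Con .Z v f
      · simp only [h1, if_true]
        exact h1 p
      · simp only [h1, if_false]
        rcases key v hv with h2 | h2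
        · exact absurd h2.1 h1
        · exact h2.1 p
    · push Not at hv
      subst hv
      rw [tau_self]
  · intro v hv h
    have := key v hv
    rw [con_Z_iff, con_Y_iff, h] at this
    rcases this with ⟨⟨h1, h2⟩, h3⟩ | ⟨⟨h1, h2⟩, h3⟩
    · exact h3 ⟨h2, h1⟩
    · exact h3 ⟨h2, h1⟩

end Gd16
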