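import Pool.Agent.K7.H16.Gd.Pair

/-!
# 3-connected unions of two Hamilton circuits: main results
-/

set_option autoImplicit false
set_option linter.unusedSectionVars false

namespace Gd16

open Goddyn Contra2 Finset

variable {V : Type*} [Fintype V] [DecidableEq V] {H : SimpleGraph V} {C₁ C₂ : H.Subgraph}

/-- What a graph without removable alternating circuit satisfies. -/
theorem main_three (h : IsHamiltonPair H C₁ C₂) (h3 : IsThreeConnected H)
    (hno : ∀ D, IsAlternating C₁ C₂ D → ∃ z, IsCutVertex (H.deleteEdges D.edgeSet) z)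
    {s : Bool → Equiv.Perm V} (h1 : IsSuccessor C₁ (s true)) (h2 : IsSuccessor C₂ (s false)) :
    ∃ _hS : Sys (fun i => cond i C₁ C₂) s,
      (∀ (x : V) (T : {v // v ≠ x} → Tr), Full s x T → Straight s x T) ∧
      altCycleSum s = 0 ∧ Fintype.card V % 4 = 1 := by
  have hcard : 4 ≤ Fintype.card V := by
    have := h3.1
    rwa [Nat.card_eq_fintype_card] at this
  have hne : Nonempty V := Fintype.card_pos_iff.1 (by omega)
  have hS := sys_of_pair h h1 h2
  have hstr : ∀ (x : V) (T : {v // v ≠ x} → Tr), Full s x T → Straight s x T :=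
    fun x T hT => straight_three h h3 hS hno T hT
  have h0 := altCycleSum_eq_zero (hstr (Classical.arbitrary V))
  exact ⟨hS, hstr, h0, mod_four_of_eq_zero hS.trans h0⟩

/-- The only possible cut-vertex can be prescribed. -/
theorem one_cut_vertex (h : IsHamiltonPair H C₁ C₂) (h3 : IsThreeConnected H) (x : V) :
    ∃ D, IsAlternating C₁ C₂ D ∧
      ∀ z, z ≠ x → ¬ IsCutVertex (H.deleteEdges D.edgeSet) z := by
  by_cases hno : ∀ D, IsAlternating C₁ C₂ D → ∃ z, IsCutVertex (H.deleteEdges D.edgeSet) z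
  · obtain ⟨s₀, hs₁, hs₂⟩ := exists_successors h
    obtain ⟨hS, hstr, -, hn⟩ := main_three h h3 hno hs₁ hs₂
    obtain ⟨c, hc⟩ := exists_par s₀ hS.trans x (by rw [Nat.odd_iff]; omega)
    have hT := full_ph hc 0
    obtain ⟨q, hq⟩ := exists_avoiding hc (Sys.ne_self hS true x)
    have hqx : x ∉ (Sub hS q).verts := by
      rintro ⟨p, hp⟩
      exact hq p hp
    refine ⟨Sub hS q, sub_alternating' hS hT q hqx, fun z hz hcut => hz ?_⟩
    exact cut_eq hS h3 hT (hstr x _ hT) hno q z hcut
  · push Not at hno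
    obtain ⟨D, hD, hz⟩ := hno
    exact ⟨D, hD, fun z _ => hz z⟩

/-- The alternating cycle sums of a graph without removable alternating circuit. -/
theorem sum_conditions (h : IsHamiltonPair H C₁ C₂) (h3 : IsThreeConnected H)
    (hno : ∀ D, IsAlternating C₁ C₂ D → ∃ z, IsCutVertex (H.deleteEdges D.edgeSet) z)
    {s : Bool → Equiv.Perm V} (h1 : IsSuccessor C₁ (s true)) (h2 : IsSuccessor C₂ (s false)) :
    Fintype.card V % 4 = 1 ∧
      (Finset.univ.filter (fun U : Finset V => U.card = 3 ∧ ncyc (theta s U) = 1)).card % 4 =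
          (Fintype.card V / 4) % 4 ∧
      altCycleSum s = 0 ∧
      ∀ x, ∃ a b : ℕ, Even a ∧ 2 ≤ a ∧ Odd b ∧ 2 * a < Fintype.card V ∧
        2 * b < Fintype.card V ∧ altSumAvoid s x = 2 * (3 ^ b - 3 ^ a) := by
  obtain ⟨hS, hstr, h0, hn⟩ := main_three h h3 hno h1 h2
  have hne : Nonempty V := Fintype.card_pos_iff.1 (by omega)
  refine ⟨hn, triples_of_eq_zero hS.trans h0, h0, fun x => ?_⟩
  obtain ⟨a, b, ha, ha0, hb, ha4, hb4, hab⟩ := altSumAvoid_value (x₀ := x) hS.trans
    (Sys.ne_self hS) (hstr x) (fun T hT => sep_three hS h3 hT (hstr x T hT) hno) hn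
  refine ⟨a, b, ha, ?_, hb, by omega, by omega, hab⟩
  obtain ⟨k, hk⟩ := ha
  omega

end Gd16
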