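import Pool.Agent.Helper876.Goddyn.Family

/-!
# Fragments, continued; cut-vertices and bad members
-/

set_option autoImplicit false

namespace Gd16

open Goddyn

variable {V ι : Type*}

/-- Each side of a bad member contains a member which is not bad. -/
theorem good_in_side [Finite V] [Finite ι] (B : ι → Set V)
    (conn : ∀ S : Set ι, S.Nonempty → Sᶜ.Nonempty → 3 ≤ (meet B S Sᶜ).ncard)
    {i : ι} {S T : Set ι} (hST : Bad B i S T) : ∃ j ∈ S, ∀ S' T', ¬ Bad B j S' T' := by
  have key : ∀ n : ℕ, ∀ i S T, Bad B i S T → S.ncard = n → ∃ j ∈ S, ∀ S' T', ¬ Bad B j S' T' := by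
    intro n
    induction n using Nat.strong_induction_on with
    | _ n ih =>
    intro i S T hST hn
    obtain ⟨y, hy⟩ := hST.1
    by_cases hgood : ∀ S' T', ¬ Bad B y S' T'
    · exact ⟨y, hy, hgood⟩
    push Not at hgood
    obtain ⟨A, C, hAC, hiC⟩ : ∃ A C, Bad B y A C ∧ i ∈ C := by
      obtain ⟨A, C, hAC⟩ := hgood
      rcases hAC.2.2.2.2.2.1 i with h | h | h
      · exact absurd (h ▸ hy) hST.2.2.2.1
      · exact ⟨C, A, hAC.symm, h⟩
      · exact ⟨A, C, hAC, h⟩
    obtain ⟨-, hTne, hdST, hiS, hiT, hcov, hm⟩ := hST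
    obtain ⟨hAne, hCne, hdAC, hyA, hyC, hcov', hm'⟩ := id hAC
    by_cases hAT : (A ∩ T).Nonempty
    · exfalso
      have h3 := conn (A ∩ T) hAT ⟨i, fun h => hiT h.2⟩
      have hsub : meet B (A ∩ T) (A ∩ T)ᶜ ⊆ meet B S T ∪ meet B A C := by
        rintro v ⟨⟨s, hs, hvs⟩, t, ht, hvt⟩
        rcases hcov t with h | h | h
        · right; exact ⟨⟨s, hs.1, hvs⟩, t, h ▸ hiC, hvt⟩
        · left; exact ⟨⟨t, h, hvt⟩, s, hs.2, hvs⟩
        · rcases hcov' t with h' | h' | h'
          · exact absurd h (h' ▸ Set.disjoint_left.1 hdST hy)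
          · exact absurd ⟨h', h⟩ ht
          · right; exact ⟨⟨s, hs.1, hvs⟩, t, h', hvt⟩
      have h4 := Set.ncard_le_ncard hsub (Set.toFinite _)
      have h5 := Set.ncard_union_le (meet B S T) (meet B A C)
      omega
    · have hAS : A ⊆ S \ {y} := by
        intro a ha
        rcases hcov a with h | h | h
        · exact absurd (h ▸ hiC) (Set.disjoint_left.1 hdAC ha)
        · exact ⟨h, fun h' => hyA (h' ▸ ha)⟩
        · exact absurd ⟨a, ha, h⟩ hAT
      have h4 := Set.ncard_le_ncard hAS (Set.toFinite _)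
      have h5 : (S \ {y}).ncard < S.ncard := by
        apply Set.ncard_lt_ncard _ (Set.toFinite _)
        refine ⟨Set.sdiff_subset, fun h => (h hy).2 rfl⟩
      obtain ⟨j, hj, hj'⟩ := ih A.ncard (by omega) y A C hAC rfl
      exact ⟨j, (hAS hj).1, hj'⟩
  exact key _ i S T hST rfl

variable {H : SimpleGraph V} {F : ι → H.Subgraph}

/-- The intersection graph of a decomposition of a 3-connected graph into circuits is
3-edge-connected. -/
lemma meet_three' [Finite V] (h3 : IsThreeConnected H) (hF : ∀ j, IsCircuit (F j))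
    (hu : ∀ u v, H.Adj u v → ∃! j, (F j).Adj u v) (S : Set ι) (hS : S.Nonempty)
    (hS' : Sᶜ.Nonempty) : 3 ≤ (meet (fun j => (F j).verts) S Sᶜ).ncard := by
  by_contra hlt
  set X := meet (fun j => (F j).verts) S Sᶜ with hX
  have hX2 : X.ncard ≤ 2 := by omega
  have hc := h3.2 X hX2
  have hpick : ∀ j, ∃ a ∈ (F j).verts, a ∉ X := by
    intro j
    by_contra hcon
    push Not at hcon
    have h4 := Set.ncard_le_ncard (show (F j).verts ⊆ X from hcon) (Set.toFinite _)
    have h5 := three_le_circuit (hF j)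
    omega
  obtain ⟨s, hs⟩ := hS
  obtain ⟨t, ht⟩ := hS'
  obtain ⟨a, ha, haX⟩ := hpick s
  obtain ⟨b, hb, hbX⟩ := hpick t
  have key : ∀ u w : (Xᶜ : Set V), (H.induce Xᶜ).Reachable u w →
      (∀ j, (u : V) ∈ (F j).verts → j ∈ S) → ∀ j, (w : V) ∈ (F j).verts → j ∈ S := by
    rintro u w ⟨p⟩
    induction p with
    | nil => exact fun h => h
    | @cons u v w huv p ih =>
      intro hP
      apply ih
      intro j hj
      by_contra hjS
      have huv' : H.Adj u v := huv
      obtain ⟨t, ht, -⟩ := hu u v huv'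
      have htS : t ∈ S := hP t ht.fst_mem
      exact v.2 ⟨⟨t, htS, ht.snd_mem⟩, j, hjS, hj⟩
  have hPa : ∀ j, a ∈ (F j).verts → j ∈ S := by
    intro j hj
    by_contra hjS
    exact haX ⟨⟨s, hs, ha⟩, j, hjS, hj⟩
  exact ht (key ⟨a, haX⟩ ⟨b, hbX⟩ (hc.preconnected _ _) hPa t hb)

/-- If deleting the edges of a member of a decomposition into circuits leaves a cut-vertex `z`,
then the member is bad, and `z` is the vertex common to the two sides. -/
theorem cut_bad [Finite V] (hF : ∀ j, IsCircuit (F j))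
    (hu : ∀ u v, H.Adj u v → ∃! j, (F j).Adj u v) (i : ι) (z : V)
    (hz : IsCutVertex (H.deleteEdges (F i).edgeSet) z) :
    ∃ S T, Bad (fun j => (F j).verts) i S T ∧ meet (fun j => (F j).verts) S T = {z} := by
  by_contra hcon
  push Not at hcon
  revert hz
  apply not_isCutVertex
  set G := H.deleteEdges (F i).edgeSet with hG
  have hGadj : ∀ u v, G.Adj u v ↔ ∃ t, t ≠ i ∧ (F t).Adj u v := by
    intro u v
    rw [hG, SimpleGraph.deleteEdges_adj, SimpleGraph.Subgraph.mem_edgeSet]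
    constructor
    · rintro ⟨h1, h2⟩
      obtain ⟨t, ht, -⟩ := hu u v h1
      exact ⟨t, fun h => h2 (h ▸ ht), ht⟩
    · rintro ⟨t, ht, htu⟩
      refine ⟨htu.adj_sub, fun h2 => ht ?_⟩
      exact (hu u v htu.adj_sub).unique htu h2
  -- members other than `i` stay connected
  have hA : ∀ t, t ≠ i → ∀ x y, x ∈ (F t).verts → y ∈ (F t).verts → x ≠ z → y ≠ z →
      (without G z).Reachable x y := fun t ht x y hx hy hxz hyz =>
    circuit_without (hF t) G (fun a b hab => (hGadj a b).2 ⟨t, ht, hab⟩) z x y hx hy hxz hyz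
  have hne : ∀ t, ∃ x ∈ (F t).verts, x ≠ z := by
    intro t
    by_contra hcon
    push Not at hcon
    have h4 := Set.ncard_le_ncard (show (F t).verts ⊆ {z} from hcon) (Set.toFinite _)
    have h5 := three_le_circuit (hF t)
    rw [Set.ncard_singleton] at h4
    omega
  let R : ι → ι → Prop := fun t s => ∀ x ∈ (F t).verts, ∀ y ∈ (F s).verts, x ≠ z → y ≠ z →
    (without G z).Reachable x y
  have hRtrans : ∀ t s r, R t s → R s r → R t r := by
    intro t s r h1 h2 x hx y hy hxz hyz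
    obtain ⟨w, hw, hwz⟩ := hne s
    exact (h1 x hx w hw hxz hwz).trans (h2 w hw y hy hwz hyz)
  have hRshare : ∀ t s, t ≠ i → s ≠ i → ∀ v, v ≠ z → v ∈ (F t).verts → v ∈ (F s).verts →
      R t s := by
    intro t s ht hs v hvz hvt hvs x hx y hy hxz hyz
    exact (hA t ht x v hx hvt hxz hvz).trans (hA s hs v y hvs hy hvz hyz)
  have hB : ∀ s t, s ≠ i → t ≠ i → z ∈ (F s).verts → z ∈ (F t).verts → R s t := by
    intro s t hs ht hzs hzt
    by_cases hst : s = t
    · subst hst
      exact fun x hx y hy hxz hyz => hA s hs x y hx hy hxz hyz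
    by_contra hR
    have hmz : meet (fun j => (F j).verts) {r | r ≠ i ∧ R s r} {r | r ≠ i ∧ ¬ R s r} = {z} := by
      ext v
      rw [Set.mem_singleton_iff]
      constructor
      · rintro ⟨⟨r, hr, hvr⟩, r', hr', hvr'⟩
        by_contra hvz
        exact hr'.2 (hRtrans _ _ _ hr.2 (hRshare r r' hr.1 hr'.1 v hvz hvr hvr'))
      · rintro rfl
        exact ⟨⟨s, ⟨hs, fun x hx y hy hxz hyz => hA s hs x y hx hy hxz hyz⟩, hzs⟩,
          t, ⟨ht, hR⟩, hzt⟩
    refine hcon {r | r ≠ i ∧ R s r} {r | r ≠ i ∧ ¬ R s r} ?_ hmz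
    refine ⟨⟨s, hs, fun x hx y hy hxz hyz => hA s hs x y hx hy hxz hyz⟩, ⟨t, ht, hR⟩, ?_,
      fun h => h.1 rfl, fun h => h.1 rfl, ?_, ?_⟩
    · rw [Set.disjoint_left]
      intro r h1 h2
      exact h2.2 h1.2
    · intro r
      by_cases h1 : r = i
      · exact Or.inl h1
      · by_cases h2 : R s r
        · exact Or.inr (Or.inl ⟨h1, h2⟩)
        · exact Or.inr (Or.inr ⟨h1, h2⟩)
    · rw [Set.ncard_eq_one]
      exact ⟨z, hmz⟩
  -- walks
  intro a b haz hbz hab
  have key : ∀ b, G.Reachable a b → (b ≠ z → (without G z).Reachable a b) ∧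
      (b = z → ∃ t, t ≠ i ∧ z ∈ (F t).verts ∧ ∀ x ∈ (F t).verts, x ≠ z →
        (without G z).Reachable a x) := by
    intro b hb
    rw [SimpleGraph.reachable_iff_reflTransGen] at hb
    induction hb with
    | refl => exact ⟨fun _ => SimpleGraph.Reachable.refl _, fun h => absurd h haz⟩
    | @tail b c _ hbc ih =>
      obtain ⟨t, ht, hbc'⟩ := (hGadj b c).1 hbc
      constructor
      · intro hcz
        by_cases hbz : b = z
        · subst hbz
          obtain ⟨s, hs, hzs, hreach⟩ := ih.2 rfl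
          obtain ⟨x, hx, hxz⟩ := hne s
          exact (hreach x hx hxz).trans (hB s t hs ht hzs hbc'.fst_mem x hx c hbc'.snd_mem hxz hcz)
        · exact (ih.1 hbz).trans (SimpleGraph.Adj.reachable ⟨hbc, hbz, hcz⟩)
      · intro hcz
        subst hcz
        have hbz : b ≠ c := hbc'.ne
        refine ⟨t, ht, hbc'.snd_mem, fun x hx hxz => ?_⟩
        exact (ih.1 hbz).trans (hA t ht b x hbc'.fst_mem hx hbz hxz)
  exact (key b hab).1 hbz

end Gd16
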