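import Pool.Agent.Helper310.Contra2.Crit
import Pool.Agent.K7.H16.Gd.Frag2

/-!
# The closed curves given by transitions at all vertices but one
-/

set_option autoImplicit false
set_option linter.unusedSectionVars false

namespace Gd16

open Goddyn Contra2

/-- `H` is the edge-disjoint union of the two circuits `C i` with successor maps `σ i`. -/
structure Sys {V : Type*} {H : SimpleGraph V} (C : Bool → H.Subgraph) (σ : Bool → Equiv.Perm V) :
    Prop where
  trans : ∀ i x y, ∃ k : ℕ, (σ i ^ k) x = y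
  two : ∀ i v, σ i (σ i v) ≠ v
  adj : ∀ i a b, (C i).Adj a b ↔ (σ i a = b ∨ σ i b = a)
  ne : ∀ i j a b, (C i).Adj a b → (C j).Adj a b → i = j
  un : ∀ a b, H.Adj a b ↔ ∃ i, (C i).Adj a b

variable {V : Type*} [DecidableEq V] (σ : Bool → Equiv.Perm V) (x₀ : V)
  (T : {v // v ≠ x₀} → Tr)

/-- Half-edges joined up. -/
def rel (a b : HE V) : Prop := b = eps σ a ∨ b = tau x₀ T a

/-- The curves. -/
def Mem : Type _ := Quot (rel σ x₀ T)

/-- The curve of a half-edge. -/
def mk (h : HE V) : Mem σ x₀ T := Quot.mk _ h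

lemma mk_eps (h : HE V) : mk σ x₀ T (eps σ h) = mk σ x₀ T h := by
  have h1 : rel σ x₀ T h (eps σ h) := Or.inl rfl
  exact (Quot.sound h1).symm

lemma mk_tau (h : HE V) : mk σ x₀ T (tau x₀ T h) = mk σ x₀ T h := by
  have h1 : rel σ x₀ T h (tau x₀ T h) := Or.inr rfl
  exact (Quot.sound h1).symm

lemma mk_surj (q : Mem σ x₀ T) : ∃ h, mk σ x₀ T h = q := Quot.exists_rep q

lemma mk_eq_iff (a b : HE V) : mk σ x₀ T a = mk σ x₀ T b ↔ Relation.EqvGen (rel σ x₀ T) a b :=
  Quot.eq

instance [Finite V] : Finite (Mem σ x₀ T) := inferInstanceAs (Finite (Quot _))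

/-- Functions constant along the curves. -/
lemma eq_of_mk_eq {β : Type*} (g : HE V → β) (h1 : ∀ h, g (eps σ h) = g h)
    (h2 : ∀ h, g (tau x₀ T h) = g h) {a b : HE V} (hab : mk σ x₀ T a = mk σ x₀ T b) :
    g a = g b := by
  rw [mk_eq_iff] at hab
  induction hab with
  | rel x y h =>
    rcases h with h | h
    · rw [h, h1]
    · rw [h, h2]
  | refl x => rfl
  | symm x y _ ih => exact ih.symm
  | trans x y z _ _ ih1 ih2 => exact ih1.trans ih2

/-- No curve passes twice through a vertex other than `x₀`. -/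
def Full : Prop := ∀ v, v ≠ x₀ → mk σ x₀ T (v, true, true) ≠ mk σ x₀ T (v, true, false)

variable {σ x₀ T}

lemma Full.ne_X (hT : Full σ x₀ T) {v : V} (hv : v ≠ x₀) : T ⟨v, hv⟩ ≠ .X := by
  intro h
  apply hT v hv
  have h1 := mk_tau σ x₀ T (v, true, true)
  rw [tau_ne T hv, h] at h1
  exact h1.symm

lemma Full.tau_false (hT : Full σ x₀ T) {v : V} (hv : v ≠ x₀) :
    (∀ d, mk σ x₀ T (v, false, d) = mk σ x₀ T (v, true, d)) ∨
      (∀ d, mk σ x₀ T (v, false, !d) = mk σ x₀ T (v, true, d)) := by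
  have h1 := hT.ne_X hv
  rcases h : T ⟨v, hv⟩ with _ | _ | _
  · exact absurd h h1
  · left
    intro d
    have h2 := mk_tau σ x₀ T (v, true, d)
    rw [tau_ne T hv, h] at h2
    exact h2
  · right
    intro d
    have h2 := mk_tau σ x₀ T (v, true, d)
    rw [tau_ne T hv, h] at h2
    exact h2

/-- The half-edges of a curve at a vertex other than `x₀`. -/
lemma Full.fiber (hT : Full σ x₀ T) {v : V} (hv : v ≠ x₀) (q : Mem σ x₀ T)
    (hq : ∃ p, mk σ x₀ T (v, p) = q) :
    ∃ d d', ∀ p, mk σ x₀ T (v, p) = q ↔ (p = (true, d) ∨ p = (false, d')) := by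
  have h1 := hT v hv
  have h3 : ∀ d d', mk σ x₀ T (v, true, d) = mk σ x₀ T (v, true, d') → d = d' := by
    intro d d' h
    cases d <;> cases d'
    · rfl
    · exact absurd h.symm h1
    · exact absurd h h1
    · rfl
  rcases hT.tau_false hv with h2 | h2
  · obtain ⟨⟨i, d⟩, hq⟩ := hq
    refine ⟨d, d, ?_⟩
    rintro ⟨j, e⟩
    have hq' : q = mk σ x₀ T (v, true, d) := by
      cases i
      · rw [← hq, h2]
      · exact hq.symm
    rw [hq']
    cases j
    · rw [h2]
      constructor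
      · intro h; right; rw [h3 _ _ h]
      · rintro (h | h)
        · simp at h
        · rw [(Prod.mk.inj h).2]
    · constructor
      · intro h; left; rw [h3 _ _ h]
      · rintro (h | h)
        · rw [(Prod.mk.inj h).2]
        · simp at h
  · obtain ⟨⟨i, d⟩, hq⟩ := hq
    obtain ⟨c, hq'⟩ : ∃ c, q = mk σ x₀ T (v, true, c) := by
      cases i
      · refine ⟨!d, ?_⟩
        rw [← hq, ← h2, Bool.not_not]
      · exact ⟨d, hq.symm⟩
    refine ⟨c, !c, ?_⟩
    rintro ⟨j, e⟩
    rw [hq']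
    cases j
    · have h4 := h2 (!e)
      rw [Bool.not_not] at h4
      rw [h4]
      constructor
      · intro h; right; rw [← h3 _ _ h, Bool.not_not]
      · rintro (h | h)
        · simp at h
        · rw [(Prod.mk.inj h).2, Bool.not_not]
    · constructor
      · intro h; left; rw [h3 _ _ h]
      · rintro (h | h)
        · rw [(Prod.mk.inj h).2]
        · simp at h

lemma mk_eq_iff_orb (p : Bool × Bool) (h : HE V) :
    mk σ x₀ T h = mk σ x₀ T (x₀, p) ↔ Orb (eps σ) (tau x₀ T) (x₀, p) h := by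
  have ht : ∀ x, tau x₀ T (tau x₀ T x) = x := tauFun_tauFun x₀ T
  have he : ∀ x, eps σ (eps σ x) = x := eps_eps σ
  have hp : tau x₀ T (x₀, p) = (x₀, p) := tau_self T p
  constructor
  · intro hh
    rw [mk_eq_iff] at hh
    have key : ∀ a b, Relation.EqvGen (rel σ x₀ T) a b →
        (Orb (eps σ) (tau x₀ T) (x₀, p) a ↔ Orb (eps σ) (tau x₀ T) (x₀, p) b) := by
      intro a b hab
      induction hab with
      | rel x y h =>
        rcases h with h | h
        · rw [h, orb_e ht he hp]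
        · rw [h, orb_t ht he hp]
      | refl x => rfl
      | symm x y _ ih => exact ih.symm
      | trans x y z _ _ ih1 ih2 => exact ih1.trans ih2
    exact (key _ _ hh).2 orb_self
  · rintro ⟨i, rfl⟩
    have h1 : ∀ y, mk σ x₀ T ((eps σ * tau x₀ T) y) = mk σ x₀ T y := fun y => by
      rw [Equiv.Perm.mul_apply, mk_eps, mk_tau]
    have h2 : ∀ y, mk σ x₀ T ((eps σ * tau x₀ T)⁻¹ y) = mk σ x₀ T y := fun y => by
      rw [← h1 ((eps σ * tau x₀ T)⁻¹ y)]; simp
    induction i with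
    | zero => simp
    | succ n ih =>
      rw [add_comm, zpow_add, zpow_one, Equiv.Perm.mul_apply, h1, ih]
    | pred n ih =>
      rw [sub_eq_add_neg, add_comm, zpow_add, zpow_neg_one, Equiv.Perm.mul_apply, h2, ih]

/-- The curve through a half-edge at `x₀` contains exactly one other half-edge at `x₀`. -/
lemma pair [Finite V] (p : Bool × Bool) : ∃ p', p' ≠ p ∧ ∀ r,
    mk σ x₀ T (x₀, r) = mk σ x₀ T (x₀, p) ↔ (r = p ∨ r = p') := by
  have ht : ∀ x, tau x₀ T (tau x₀ T x) = x := tauFun_tauFun x₀ T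
  have he : ∀ x, eps σ (eps σ x) = x := eps_eps σ
  have hp : tau x₀ T (x₀, p) = (x₀, p) := tau_self T p
  obtain ⟨p', h1, h2, h3, h4⟩ := orb_partner ht he (eps_ne σ) hp
  obtain ⟨y, r'⟩ := p'
  have hy : y = x₀ := by
    by_contra hy
    rw [tau_ne T hy] at h3
    exact flip_ne _ _ (congrArg Prod.snd h3)
  subst hy
  refine ⟨r', fun h => h2 (by rw [h]), fun r => ?_⟩
  rw [mk_eq_iff_orb]
  constructor
  · intro h
    rcases h4 _ h (tau_self T r) with h5 | h5
    · exact Or.inl (congrArg Prod.snd h5)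
    · exact Or.inr (congrArg Prod.snd h5)
  · rintro (rfl | rfl)
    · exact orb_self
    · exact h1

variable {H : SimpleGraph V} {C : Bool → H.Subgraph}

lemma Sys.nb_adj (hS : Sys C σ) (v : V) (p : Bool × Bool) : (C p.1).Adj v (eps σ (v, p)).1 := by
  obtain ⟨i, d⟩ := p
  cases d
  · rw [eps_in, hS.adj]; right; simp
  · rw [eps_out, hS.adj]; left; rfl

lemma Sys.nb_inj (hS : Sys C σ) (v : V) :
    Function.Injective (fun p : Bool × Bool => (eps σ (v, p)).1) := by
  intro p r h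
  have h1 := hS.nb_adj v p
  have h2 := hS.nb_adj v r
  have h0 : (eps σ (v, p)).1 = (eps σ (v, r)).1 := h
  rw [h0] at h1
  have h3 := hS.ne _ _ _ _ h1 h2
  obtain ⟨i, d⟩ := p
  obtain ⟨j, e⟩ := r
  simp only at h3
  subst h3
  cases d <;> cases e
  · rfl
  · exfalso
    rw [eps_in, eps_out] at h0
    apply hS.two i ((σ i).symm v)
    have h4 : (σ i).symm v = σ i v := h0
    rw [Equiv.apply_symm_apply, ← h4]
  · exfalso
    rw [eps_in, eps_out] at h0
    apply hS.two i ((σ i).symm v)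
    have h4 : σ i v = (σ i).symm v := h0
    rw [Equiv.apply_symm_apply, h4]
  · rfl

/-- The curve as a subgraph of `H`. -/
def Sub (hS : Sys C σ) (q : Mem σ x₀ T) : H.Subgraph where
  verts := {v | ∃ p, mk σ x₀ T (v, p) = q}
  Adj a b := ∃ i, (σ i a = b ∧ mk σ x₀ T (a, i, true) = q) ∨
    (σ i b = a ∧ mk σ x₀ T (b, i, true) = q)
  adj_sub := by
    rintro a b ⟨i, h | h⟩
    · exact (hS.un a b).2 ⟨i, (hS.adj i a b).2 (Or.inl h.1)⟩
    · exact (hS.un a b).2 ⟨i, (hS.adj i a b).2 (Or.inr h.1)⟩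
  edge_vert := by
    rintro a b ⟨i, h | h⟩
    · exact ⟨_, h.2⟩
    · refine ⟨(i, false), ?_⟩
      rw [← mk_eps, eps_in, ← h.1, Equiv.symm_apply_apply]
      exact h.2
  symm := ⟨fun a b ⟨i, hi⟩ => ⟨i, hi.symm⟩⟩

lemma sub_verts (hS : Sys C σ) (q : Mem σ x₀ T) (v : V) :
    v ∈ (Sub hS q).verts ↔ ∃ p, mk σ x₀ T (v, p) = q := Iff.rfl

lemma sub_adj (hS : Sys C σ) (q : Mem σ x₀ T) (v b : V) :
    (Sub hS q).Adj v b ↔ ∃ p, (eps σ (v, p)).1 = b ∧ mk σ x₀ T (v, p) = q := by
  constructor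
  · rintro ⟨i, h | h⟩
    · exact ⟨(i, true), by rw [eps_out]; exact h.1, h.2⟩
    · refine ⟨(i, false), ?_, ?_⟩
      · rw [eps_in, ← h.1]; simp
      · rw [← mk_eps, eps_in, ← h.1, Equiv.symm_apply_apply]
        exact h.2
  · rintro ⟨⟨i, d⟩, h1, h2⟩
    cases d
    · refine ⟨i, Or.inr ?_⟩
      rw [eps_in] at h1
      have h3 : (σ i).symm v = b := h1
      refine ⟨by rw [← h3]; simp, ?_⟩
      rw [← mk_eps, eps_in] at h2
      rw [← h3]; exact h2
    · refine ⟨i, Or.inl ?_⟩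
      rw [eps_out] at h1
      exact ⟨h1, h2⟩

lemma sub_connected (hS : Sys C σ) (q : Mem σ x₀ T) : (Sub hS q).Connected := by
  have key : ∀ a b, Relation.EqvGen (rel σ x₀ T) a b → ∀ (ha : mk σ x₀ T a = q)
      (hb : mk σ x₀ T b = q), (Sub hS q).coe.Reachable ⟨a.1, a.2, ha⟩ ⟨b.1, b.2, hb⟩ := by
    intro a b hab
    induction hab with
    | rel x y h =>
      intro ha hb
      rcases h with h | h
      · apply SimpleGraph.Adj.reachable
        show (Sub hS q).Adj x.1 y.1
        rw [sub_adj]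
        refine ⟨x.2, ?_, ha⟩
        rw [h]
      · have h1 : y.1 = x.1 := by
          rw [h]
          by_cases hx : x.1 ≠ x₀
          · have h2 := tau_ne T hx x.2
            have h3 : tau x₀ T x = (x.1, flip (T ⟨x.1, hx⟩) x.2) := h2
            rw [h3]
          · have h3 : tau x₀ T x = x := by
              obtain ⟨z, r⟩ := x
              simp only [ne_eq, not_not] at hx
              subst hx
              exact tau_self T r
            rw [h3]
        have h2 : (⟨x.1, x.2, ha⟩ : (Sub hS q).verts) = ⟨y.1, y.2, hb⟩ := Subtype.ext h1.symm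
        rw [h2]
    | refl x => intro ha hb; exact SimpleGraph.Reachable.refl _
    | symm x y _ ih => intro ha hb; exact (ih hb ha).symm
    | trans x y z hxy _ ih1 ih2 =>
      intro ha hb
      have hy : mk σ x₀ T y = q := by rw [← ha]; exact ((mk_eq_iff σ x₀ T x y).2 hxy).symm
      exact (ih1 ha hy).trans (ih2 hy hb)
  obtain ⟨h₀, hh₀⟩ := mk_surj σ x₀ T q
  constructor
  have : Nonempty (Sub hS q).verts := ⟨⟨h₀.1, h₀.2, hh₀⟩⟩
  refine ⟨fun u v => ?_⟩
  obtain ⟨u, p, hu⟩ := u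
  obtain ⟨v, r, hv⟩ := v
  exact key (u, p) (v, r) ((mk_eq_iff σ x₀ T _ _).1 (hu.trans hv.symm)) hu hv

lemma sub_ncard (hS : Sys C σ) (q : Mem σ x₀ T) (v : V) :
    ((Sub hS q).neighborSet v).ncard = {p | mk σ x₀ T (v, p) = q}.ncard := by
  have h1 : (Sub hS q).neighborSet v =
      (fun p : Bool × Bool => (eps σ (v, p)).1) '' {p | mk σ x₀ T (v, p) = q} := by
    ext b
    rw [SimpleGraph.Subgraph.mem_neighborSet, sub_adj]
    constructor
    · rintro ⟨p, h1, h2⟩; exact ⟨p, h2, h1⟩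
    · rintro ⟨p, h1, h2⟩; exact ⟨p, h2, h1⟩
  rw [h1, Set.ncard_image_of_injective _ (hS.nb_inj v)]

lemma sub_circuit [Finite V] (hS : Sys C σ) (hT : Full σ x₀ T) (q : Mem σ x₀ T) :
    Goddyn.IsCircuit (Sub hS q) := by
  refine ⟨sub_connected hS q, fun v hv => ?_⟩
  rw [sub_ncard]
  by_cases hv0 : v = x₀
  · subst hv0
    obtain ⟨p, hp⟩ := hv
    obtain ⟨p', h1, h2⟩ := pair (σ := σ) (x₀ := v) (T := T) p
    have h3 : {r | mk σ v T (v, r) = q} = {p, p'} := by
      ext r
      rw [← hp]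
      exact h2 r
    rw [h3, Set.ncard_pair h1.symm]
  · obtain ⟨d, d', h⟩ := hT.fiber hv0 q hv
    have h3 : {r | mk σ x₀ T (v, r) = q} = {(true, d), (false, d')} := by
      ext r
      exact h r
    rw [h3, Set.ncard_pair (by simp)]

lemma sub_unique (hS : Sys C σ) (u v : V) (huv : H.Adj u v) :
    ∃! q : Mem σ x₀ T, (Sub hS q).Adj u v := by
  obtain ⟨i, hi⟩ := (hS.un u v).1 huv
  have hcase := (hS.adj i u v).1 hi
  have hj : ∀ j, σ j u = v ∨ σ j v = u → j = i := by
    intro j hj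
    exact hS.ne j i u v ((hS.adj j u v).2 hj) hi
  rcases hcase with h | h
  · refine ⟨mk σ x₀ T (u, i, true), ⟨i, Or.inl ⟨h, rfl⟩⟩, ?_⟩
    rintro q ⟨j, hq | hq⟩
    · have := hj j (Or.inl hq.1)
      subst this
      exact hq.2.symm
    · have := hj j (Or.inr hq.1)
      subst this
      exact absurd (by rw [h, hq.1]) (hS.two j u)
  · refine ⟨mk σ x₀ T (v, i, true), ⟨i, Or.inr ⟨h, rfl⟩⟩, ?_⟩
    rintro q ⟨j, hq | hq⟩
    · have := hj j (Or.inl hq.1)
      subst this
      exact absurd (by rw [h, hq.1]) (hS.two j v)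
    · have := hj j (Or.inr hq.1)
      subst this
      exact hq.2.symm

/-- The circuit `Sub hS q` is alternating if this holds at `x₀`. -/
lemma sub_alternating [Finite V] (hS : Sys C σ) (hT : Full σ x₀ T) (q : Mem σ x₀ T)
    (h0 : ∀ p r, mk σ x₀ T (x₀, p) = q → mk σ x₀ T (x₀, r) = q → p ≠ r → p.1 ≠ r.1) :
    IsAlternating (C true) (C false) (Sub hS q) := by
  refine ⟨sub_circuit hS hT q, fun v a b ha hb hab => ?_⟩
  rw [sub_adj] at ha hb
  obtain ⟨p, hp1, hp2⟩ := ha
  obtain ⟨r, hr1, hr2⟩ := hb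
  have hpr : p ≠ r := by
    rintro rfl
    exact hab (hp1.symm.trans hr1)
  have hne : p.1 ≠ r.1 := by
    by_cases hv0 : v = x₀
    · subst hv0
      exact h0 p r hp2 hr2 hpr
    · obtain ⟨d, d', h⟩ := hT.fiber hv0 q ⟨p, hp2⟩
      rcases (h p).1 hp2 with h1 | h1 <;> rcases (h r).1 hr2 with h2 | h2
      · exact absurd (h1.trans h2.symm) hpr
      · rw [h1, h2]; simp
      · rw [h1, h2]; simp
      · exact absurd (h1.trans h2.symm) hpr
  have h1 := hS.nb_adj v p
  have h2 := hS.nb_adj v r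
  rw [hp1] at h1
  rw [hr1] at h2
  rcases hp : p.1 with _ | _ <;> rcases hr : r.1 with _ | _
  · exact absurd (hp.trans hr.symm) hne
  · rw [hp] at h1; rw [hr] at h2
    exact Or.inr ⟨h1, h2⟩
  · rw [hp] at h1; rw [hr] at h2
    exact Or.inl ⟨h1, h2⟩
  · exact absurd (hp.trans hr.symm) hne

end Gd16
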