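import Pool.Agent.K7.H16.Gd.Struct

/-!
# 3-connected graphs without removable alternating circuit: curves separate
-/

set_option autoImplicit false
set_option linter.unusedSectionVars false

namespace Gd16

open Goddyn Contra2

variable {V : Type*} [DecidableEq V] {σ : Bool → Equiv.Perm V} {x₀ : V}
  {T : {v // v ≠ x₀} → Tr} {H : SimpleGraph V} {C : Bool → H.Subgraph}

lemma sub_alternating' [Finite V] (hS : Sys C σ) (hT : Full σ x₀ T) (q : Mem σ x₀ T)
    (hq : x₀ ∉ (Sub hS q).verts) : IsAlternating (C true) (C false) (Sub hS q) :=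
  sub_alternating hS hT q (fun p _ hp _ _ => absurd ⟨p, hp⟩ hq)

lemma bad_facts [Finite V] (hS : Sys C σ) (h3 : IsThreeConnected H) (hT : Full σ x₀ T)
    (hst : Straight σ x₀ T)
    (hno : ∀ D, IsAlternating (C true) (C false) D →
      ∃ z, IsCutVertex (H.deleteEdges D.edgeSet) z)
    (q : Mem σ x₀ T) (S S' : Set (Mem σ x₀ T))
    (hbad : Bad (fun j => (Sub hS j).verts) q S S') :
    meet (fun j => (Sub hS j).verts) S S' = {x₀} ∧
      ((E1 σ x₀ T ∈ S ∧ E2 σ x₀ T ∈ S') ∨ (E2 σ x₀ T ∈ S ∧ E1 σ x₀ T ∈ S')) := by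
  have hcirc : ∀ j : Mem σ x₀ T, Goddyn.IsCircuit (Sub hS j) := sub_circuit hS hT
  have hu : ∀ u v, H.Adj u v → ∃! j : Mem σ x₀ T, (Sub hS j).Adj u v := sub_unique hS
  have conn := fun S hS1 hS2 => meet_three' (F := fun j : Mem σ x₀ T => Sub hS j) h3 hcirc hu S
    hS1 hS2
  have hgood : ∀ j : Mem σ x₀ T, (∀ R R', ¬ Bad (fun j => (Sub hS j).verts) j R R') →
      x₀ ∈ (Sub hS j).verts := by
    intro j hj
    by_contra hx
    obtain ⟨z, hz⟩ := hno _ (sub_alternating' hS hT j hx)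
    obtain ⟨R, R', h1, -⟩ := cut_bad (F := fun j : Mem σ x₀ T => Sub hS j) hcirc hu j z hz
    exact hj R R' h1
  obtain ⟨j, hjS, hj⟩ := good_in_side _ conn hbad
  obtain ⟨k, hkS, hk⟩ := good_in_side _ conn hbad.symm
  have hj0 := hgood j hj
  have hk0 := hgood k hk
  have hx : x₀ ∈ meet (fun j => (Sub hS j).verts) S S' := ⟨⟨j, hjS, hj0⟩, k, hkS, hk0⟩
  have hm : meet (fun j => (Sub hS j).verts) S S' = {x₀} := by
    obtain ⟨y, hy⟩ := Set.ncard_eq_one.1 hbad.2.2.2.2.2.2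
    rw [hy] at hx ⊢
    rw [Set.mem_singleton_iff] at hx
    rw [hx]
  have hmem : ∀ j : Mem σ x₀ T, x₀ ∈ (Sub hS j).verts → j = E1 σ x₀ T ∨ j = E2 σ x₀ T := by
    rintro j ⟨⟨i, d⟩, h⟩
    cases i
    · right; rw [← h, hst.facts.2.2.2]
    · left; rw [← h, hst.facts.2.2.1]
  refine ⟨hm, ?_⟩
  have hjk : j ≠ k := by
    rintro rfl
    exact Set.disjoint_left.1 hbad.2.2.1 hjS hkS
  rcases hmem j hj0 with h1 | h1 <;> rcases hmem k hk0 with h2 | h2
  · exact absurd (h1.trans h2.symm) hjk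
  · left; exact ⟨h1 ▸ hjS, h2 ▸ hkS⟩
  · right; exact ⟨h1 ▸ hjS, h2 ▸ hkS⟩
  · exact absurd (h1.trans h2.symm) hjk

/-- A cut-vertex left by a curve avoiding `x₀` is `x₀`. -/
theorem cut_eq [Finite V] (hS : Sys C σ) (h3 : IsThreeConnected H) (hT : Full σ x₀ T)
    (hst : Straight σ x₀ T)
    (hno : ∀ D, IsAlternating (C true) (C false) D →
      ∃ z, IsCutVertex (H.deleteEdges D.edgeSet) z)
    (q : Mem σ x₀ T) (z : V) (hz : IsCutVertex (H.deleteEdges (Sub hS q).edgeSet) z) :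
    z = x₀ := by
  obtain ⟨R, R', h1, h2⟩ := cut_bad (F := fun j : Mem σ x₀ T => Sub hS j) (sub_circuit hS hT)
    (sub_unique hS) q z hz
  have h3' := (bad_facts hS h3 hT hst hno q R R' h1).1
  rw [h3'] at h2
  exact (Set.singleton_injective h2).symm

theorem sep_three [Finite V] (hS : Sys C σ) (h3 : IsThreeConnected H) (hT : Full σ x₀ T)
    (hst : Straight σ x₀ T)
    (hno : ∀ D, IsAlternating (C true) (C false) D →
      ∃ z, IsCutVertex (H.deleteEdges D.edgeSet) z) : Sep σ x₀ T := by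
  intro q hq
  have hx : x₀ ∉ (Sub hS q).verts := by
    rintro ⟨p, hp⟩
    exact hq p hp
  obtain ⟨z, hz⟩ := hno _ (sub_alternating' hS hT q hx)
  obtain ⟨R, R', h1, -⟩ := cut_bad (F := fun j : Mem σ x₀ T => Sub hS j) (sub_circuit hS hT)
    (sub_unique hS) q z hz
  have h2 := bad_facts hS h3 hT hst hno q R R' h1
  have hmeet : ∀ s ∈ R, ∀ s' ∈ R', ∀ v, v ≠ x₀ → (∃ p, mk σ x₀ T (v, p) = s) →
      (∃ p, mk σ x₀ T (v, p) = s') → False := by
    intro s hs s' hs' v hv hv1 hv2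
    have : v ∈ meet (fun j => (Sub hS j).verts) R R' := ⟨⟨s, hs, hv1⟩, s', hs', hv2⟩
    rw [h2.1] at this
    exact hv this
  rcases h2.2 with h4 | h4
  · exact ⟨R, R', h4.1, h4.2, h1.2.2.2.2.2.1, hmeet⟩
  · refine ⟨R', R, h4.2, h4.1, fun j => ?_, fun s hs s' hs' v hv hv1 hv2 =>
      hmeet s' hs' s hs v hv hv2 hv1⟩
    exact (h1.2.2.2.2.2.1 j).imp_right Or.symm

end Gd16
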