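import Pool.Agent.K7.H16.Gd.MainX
import Pool.Agent.K7.H16.Gd.SepThree
import Pool.Agent.Helper310.Contra2.Main
import Pool.Agent.Helper876.Goddyn.Col

/-!
# Unions of two Hamilton circuits without removable alternating circuit
-/

set_option autoImplicit false
set_option linter.unusedSectionVars false

namespace Gd16

open Goddyn Contra2 Finset

variable {V : Type*}

/-- `s` is a successor map of the Hamilton circuit `C`: `s` permutes the vertices in a single
cycle, and the edges of `C` are the pairs `{v, s v}`. -/
def IsSuccessor {H : SimpleGraph V} (C : H.Subgraph) (s : Equiv.Perm V) : Prop :=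
  (∀ u v, ∃ k : ℕ, (s ^ k) u = v) ∧ ∀ u v, C.Adj u v ↔ (s u = v ∨ s v = u)

variable {H : SimpleGraph V} {C₁ C₂ : H.Subgraph}

lemma IsSuccessor.two {C : H.Subgraph} {s : Equiv.Perm V} (hs : IsSuccessor C s)
    (hC : IsHamiltonCircuit C) (v : V) : s (s v) ≠ v := by
  intro h
  have h1 := hC.1.2 v (hC.2 v)
  have h2 : C.neighborSet v = {s v} := by
    ext w
    rw [SimpleGraph.Subgraph.mem_neighborSet, hs.2, Set.mem_singleton_iff]
    constructor
    · rintro (h3 | h3)
      · exact h3.symm
      · apply s.injective
        rw [h3, h]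
    · rintro rfl; exact Or.inl rfl
  rw [h2, Set.ncard_singleton] at h1
  norm_num at h1

lemma sys_of_pair (h : IsHamiltonPair H C₁ C₂) {s : Bool → Equiv.Perm V}
    (h1 : IsSuccessor C₁ (s true)) (h2 : IsSuccessor C₂ (s false)) :
    Sys (fun i => cond i C₁ C₂) s where
  trans i := by cases i; exacts [h2.1, h1.1]
  two i := by cases i; exacts [h2.two h.ham₂, h1.two h.ham₁]
  adj i := by cases i; exacts [h2.2, h1.2]
  ne i j a b hi hj := by
    cases i <;> cases j
    · rfl
    · exact (h.not_both hj hi).elim
    · exact (h.not_both hi hj).elim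
    · rfl
  un a b := by
    rw [h.adj_iff]
    constructor
    · rintro (h3 | h3)
      · exact ⟨true, h3⟩
      · exact ⟨false, h3⟩
    · rintro ⟨i, hi⟩
      cases i
      · exact Or.inr hi
      · exact Or.inl hi

lemma exists_successors [Finite V] (h : IsHamiltonPair H C₁ C₂) :
    ∃ s : Bool → Equiv.Perm V, IsSuccessor C₁ (s true) ∧ IsSuccessor C₂ (s false) := by
  obtain ⟨s₁, hs₁, -, hs₁''⟩ := hamilton_perm h.ham₁
  obtain ⟨s₂, hs₂, -, hs₂''⟩ := hamilton_perm h.ham₂
  exact ⟨fun i => cond i s₁ s₂, ⟨hs₁, hs₁''⟩, ⟨hs₂, hs₂''⟩⟩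

section

variable [DecidableEq V] {C : Bool → H.Subgraph} {s : Bool → Equiv.Perm V}

lemma Sys.ne_self (hS : Sys C s) (i : Bool) (v : V) : s i v ≠ v := fun h =>
  hS.two i v (by rw [h, h])

/-- In a 3-connected graph without a removable alternating circuit all curves go straight. -/
lemma straight_three [Finite V] (h : IsHamiltonPair H C₁ C₂) (h3 : IsThreeConnected H)
    (hS : Sys (fun i => cond i C₁ C₂) s)
    (hno : ∀ D, IsAlternating C₁ C₂ D → ∃ z, IsCutVertex (H.deleteEdges D.edgeSet) z)
    {x₀ : V} (T : {v // v ≠ x₀} → Tr) (hT : Full s x₀ T) : Straight s x₀ T := by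
  by_contra hst
  have : Nonempty (Mem s x₀ T) := ⟨E1 s x₀ T⟩
  obtain ⟨i, hi⟩ := exists_removable (F := fun q : Mem s x₀ T => Sub hS q) h h3
    (alternating_of_not_straight hS hT hst) (sub_unique hS)
  obtain ⟨z, hz⟩ := hno _ (alternating_of_not_straight hS hT hst i)
  exact hi z hz

/-- If all curves go straight at `x₀` then the alternating cycle sum vanishes. -/
theorem altCycleSum_eq_zero [Fintype V] {x₀ : V}
    (hstr : ∀ T : {v // v ≠ x₀} → Tr, Full s x₀ T → Straight s x₀ T) : altCycleSum s = 0 := by
  classical
  by_contra h0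
  obtain ⟨q, _, f, hf1, hf2⟩ := exists_colouring s h0
  let g : HE V → ZMod q := fun h =>
    if h.2.2 = true then f h.2.1 h.1 else f h.2.1 ((s h.2.1).symm h.1)
  have g_out : ∀ v i, g (v, i, true) = f i v := fun v i => by simp [g]
  have g_in : ∀ v i, g (v, i, false) = f i ((s i).symm v) := fun v i => by simp [g]
  have g_eps : ∀ h, g (eps s h) = g h := by
    rintro ⟨v, i, d⟩
    cases d
    · rw [eps_in, g_out, g_in]
    · rw [eps_out, g_out, g_in]; simp
  have g_ne : ∀ v i, g (v, i, true) ≠ g (v, i, false) := by
    intro v i h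
    rw [g_out, g_in] at h
    exact hf1 i v h.symm
  let T : {v // v ≠ x₀} → Tr := fun v =>
    if f true v.1 = f false v.1 ∧ f true ((s true).symm v.1) = f false ((s false).symm v.1)
      then .Y else .Z
  have g_tau : ∀ h, g (tau x₀ T h) = g h := by
    rintro ⟨v, i, d⟩
    by_cases hv : v ≠ x₀
    · rw [tau_ne _ hv]
      rcases hf2 v with h1 | h1
      · have h2 : T ⟨v, hv⟩ = .Y := by simp [T, h1]
        rw [h2]
        cases i <;> cases d
        · show g (v, true, false) = g (v, false, false)
          rw [g_in, g_in]; exact h1.2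
        · show g (v, true, true) = g (v, false, true)
          rw [g_out, g_out]; exact h1.1
        · show g (v, false, false) = g (v, true, false)
          rw [g_in, g_in]; exact h1.2.symm
        · show g (v, false, true) = g (v, true, true)
          rw [g_out, g_out]; exact h1.1.symm
      · have h2 : T ⟨v, hv⟩ = .Z := by
          have h3 : ¬ (f true v = f false v ∧
              f true ((s true).symm v) = f false ((s false).symm v)) := by
            rintro ⟨h3, -⟩
            exact hf1 false v (h1.1.symm.trans h3)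
          simp only [T]
          rw [if_neg h3]
        rw [h2]
        cases i <;> cases d
        · show g (v, true, true) = g (v, false, false)
          rw [g_out, g_in]; exact h1.1
        · show g (v, true, false) = g (v, false, true)
          rw [g_out, g_in]; exact h1.2
        · show g (v, false, true) = g (v, true, false)
          rw [g_out, g_in]; exact h1.2.symm
        · show g (v, false, false) = g (v, true, true)
          rw [g_out, g_in]; exact h1.1.symm
    · push Not at hv
      subst hv
      rw [tau_self]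
  have hfull : Full s x₀ T := fun v _ h =>
    g_ne v true (eq_of_mk_eq s x₀ T g g_eps g_tau h)
  have hst := hstr T hfull
  exact g_ne x₀ true (eq_of_mk_eq s x₀ T g g_eps g_tau hst.symm)

/-- If the alternating cycle sum vanishes then the number of 3-sets with one cycle is
determined modulo 4. -/
theorem triples_of_eq_zero [Fintype V] [Nonempty V]
    (htr : ∀ i x y, ∃ k : ℕ, (s i ^ k) x = y) (h0 : altCycleSum s = 0) :
    (Finset.univ.filter (fun U : Finset V => U.card = 3 ∧ ncyc (theta s U) = 1)).card % 4 =
      (Fintype.card V / 4) % 4 := by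
  have h1 := SS_mod s htr
  rw [h0] at h1
  obtain ⟨m, hm⟩ : ∃ m, Fintype.card V = 4 * m + 1 :=
    ⟨Fintype.card V / 4, by omega⟩
  have h2 : (Fintype.card V).choose 2 = 8 * (m * m) + 2 * m := by
    rw [hm, Nat.choose_two_right, Nat.add_sub_cancel]
    have : (4 * m + 1) * (4 * m) = 2 * (8 * (m * m) + 2 * m) := by ring
    rw [this, Nat.mul_div_cancel_left _ (by norm_num)]
  rw [h2, hm] at h1
  rw [hm]
  push_cast at h1
  have e1 : (m : ℤ) * m = ((m * m : ℕ) : ℤ) := by push_cast; rfl
  rw [e1] at h1
  omega

/-- If the alternating cycle sum vanishes then `n` is `1` modulo `4`. -/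
theorem mod_four_of_eq_zero [Fintype V] [Nonempty V]
    (htr : ∀ i x y, ∃ k : ℕ, (s i ^ k) x = y) (h0 : altCycleSum s = 0) :
    Fintype.card V % 4 = 1 := by
  have h1 := SS_mod s htr
  rw [h0] at h1
  omega

end

end Gd16
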