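import Pool.Agent.K7.H16.Gd.Struct

/-!
# The two alternating phases
-/

set_option autoImplicit false
set_option linter.unusedSectionVars false

namespace Gd16

open Goddyn Contra2

variable {V : Type*} [DecidableEq V]

/-- Parities of the positions on the two circuits, counted from `x₀`. -/
structure IsPar (σ : Bool → Equiv.Perm V) (x₀ : V) (c : Bool → V → ZMod 2) : Prop where
  zero : ∀ i, c i x₀ = 0
  succ : ∀ i w, σ i w ≠ x₀ → c i (σ i w) = c i w + 1
  last : ∀ i w, σ i w = x₀ → c i w = 0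

lemma exists_pos [Fintype V] (s : Equiv.Perm V) (hs : ∀ x y, ∃ k : ℕ, (s ^ k) x = y) (x₀ : V)
    (hodd : Odd (Fintype.card V)) : ∃ c : V → ZMod 2, c x₀ = 0 ∧
      (∀ w, s w ≠ x₀ → c (s w) = c w + 1) ∧ ∀ w, s w = x₀ → c w = 0 := by
  have hcy : s.IsCycleOn ((Finset.univ : Finset V) : Set V) := by
    constructor
    · rw [Finset.coe_univ]
      exact Set.bijOn_univ.2 s.bijective
    · intro a _ b _
      obtain ⟨k, hk⟩ := hs a b
      exact ⟨k, by rw [zpow_natCast]; exact hk⟩
  have hmod : ∀ a b : ℕ, (s ^ a) x₀ = (s ^ b) x₀ ↔ a ≡ b [MOD Fintype.card V] := by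
    intro a b
    rw [hcy.pow_apply_eq_pow_apply (Finset.mem_univ x₀), Finset.card_univ]
  have hk : ∀ v, (s ^ Nat.find (hs x₀ v)) x₀ = v := fun v => Nat.find_spec (hs x₀ v)
  have hmin : ∀ v m, (s ^ m) x₀ = v → Nat.find (hs x₀ v) ≤ m := fun v m hm =>
    Nat.find_min' (hs x₀ v) hm
  refine ⟨fun v => (Nat.find (hs x₀ v) : ZMod 2), ?_, ?_, ?_⟩
  · have h1 : Nat.find (hs x₀ x₀) = 0 := by
      have := hmin x₀ 0 (by simp)
      omega
    show ((Nat.find (hs x₀ x₀) : ℕ) : ZMod 2) = 0
    rw [h1]; simp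
  · intro w hw
    have h1 : Nat.find (hs x₀ (s w)) = Nat.find (hs x₀ w) + 1 := by
      apply le_antisymm
      · apply hmin
        rw [pow_succ', Equiv.Perm.mul_apply, hk w]
      · have h2 : Nat.find (hs x₀ (s w)) ≠ 0 := by
          intro h0
          have := hk (s w)
          rw [h0] at this
          exact hw (by simpa using this.symm)
        obtain ⟨m, hm⟩ : ∃ m, Nat.find (hs x₀ (s w)) = m + 1 :=
          ⟨Nat.find (hs x₀ (s w)) - 1, by omega⟩
        have h3 := hk (s w)
        rw [hm, pow_succ', Equiv.Perm.mul_apply] at h3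
        have := hmin w m (s.injective h3)
        omega
    show ((Nat.find (hs x₀ (s w)) : ℕ) : ZMod 2) = (Nat.find (hs x₀ w) : ℕ) + 1
    rw [h1]; push_cast; ring
  · intro w hw
    have hn : 0 < Fintype.card V := Fintype.card_pos_iff.2 ⟨x₀⟩
    have h1 : (s ^ (Nat.find (hs x₀ w) + 1)) x₀ = (s ^ 0) x₀ := by
      rw [pow_succ', Equiv.Perm.mul_apply, hk w, hw]; simp
    rw [hmod] at h1
    have h2 : Nat.find (hs x₀ w) ≤ Fintype.card V - 1 := by
      apply hmin
      have h3 : (s ^ (Fintype.card V - 1 + 1)) x₀ = (s ^ 0) x₀ := by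
        rw [hmod, Nat.sub_add_cancel hn]
        exact (Nat.modEq_zero_iff_dvd.2 dvd_rfl)
      rw [pow_succ', Equiv.Perm.mul_apply] at h3
      apply s.injective
      rw [h3, hw]; simp
    have h4 : Fintype.card V ∣ Nat.find (hs x₀ w) + 1 := (Nat.modEq_zero_iff_dvd.1 h1)
    have h5 := Nat.le_of_dvd (by omega) h4
    have h6 : Nat.find (hs x₀ w) = Fintype.card V - 1 := by omega
    show ((Nat.find (hs x₀ w) : ℕ) : ZMod 2) = 0
    rw [h6]
    obtain ⟨k, hk'⟩ := hodd
    rw [hk', Nat.add_sub_cancel]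
    push_cast
    rw [show (2 : ZMod 2) = 0 from rfl, zero_mul]

lemma exists_par [Fintype V] (σ : Bool → Equiv.Perm V)
    (hσ : ∀ i x y, ∃ k : ℕ, (σ i ^ k) x = y) (x₀ : V)
    (hodd : Odd (Fintype.card V)) : ∃ c, IsPar σ x₀ c := by
  choose c h1 h2 h3 using fun i => exists_pos (σ i) (hσ i) x₀ hodd
  exact ⟨c, h1, h2, h3⟩

variable {σ : Bool → Equiv.Perm V} {x₀ : V}

/-- The transitions of a phase. -/
def ph (x₀ : V) (c : Bool → V → ZMod 2) (τ : ZMod 2) (v : {v // v ≠ x₀}) : Tr :=
  if c true v.1 = c false v.1 + τ then .Y else .Z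

/-- The colouring of a phase. -/
def gc (σ : Bool → Equiv.Perm V) (c : Bool → V → ZMod 2) (τ : ZMod 2) (h : HE V) : ZMod 2 :=
  if h.2.2 = true then c h.2.1 h.1 + (if h.2.1 = true then 0 else τ)
  else c h.2.1 ((σ h.2.1).symm h.1) + (if h.2.1 = true then 0 else τ)

lemma gc_eps (c : Bool → V → ZMod 2) (τ : ZMod 2) (h : HE V) :
    gc σ c τ (eps σ h) = gc σ c τ h := by
  obtain ⟨v, i, d⟩ := h
  cases d
  · rw [eps_in]; simp [gc]
  · rw [eps_out]; simp [gc]

lemma zmod2_ne {a b : ZMod 2} : a ≠ b ↔ a = b + 1 := by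
  revert a b; decide

lemma zmod2_add (a : ZMod 2) : a + 1 + 1 = a := by
  revert a; decide

lemma gc_in {c : Bool → V → ZMod 2} (hc : IsPar σ x₀ c) (τ : ZMod 2) {v : V} (hv : v ≠ x₀)
    (i : Bool) : gc σ c τ (v, i, false) = gc σ c τ (v, i, true) + 1 := by
  have h1 := hc.succ i ((σ i).symm v) (by rw [Equiv.apply_symm_apply]; exact hv)
  rw [Equiv.apply_symm_apply] at h1
  simp only [gc, if_true, Bool.false_eq_true, if_false]
  rw [h1]
  have h2 : ∀ a b : ZMod 2, a + b = a + 1 + b + 1 := by decide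
  exact h2 _ _

lemma gc_zero {c : Bool → V → ZMod 2} (hc : IsPar σ x₀ c) (τ : ZMod 2) (i d : Bool) :
    gc σ c τ (x₀, i, d) = if i = true then 0 else τ := by
  cases d
  · have h1 := hc.last i ((σ i).symm x₀) (by simp)
    simp only [gc, Bool.false_eq_true, if_false]
    rw [h1, zero_add]
  · simp only [gc, if_true]
    rw [hc.zero, zero_add]

lemma gc_tau {c : Bool → V → ZMod 2} (hc : IsPar σ x₀ c) (τ : ZMod 2) (h : HE V) :
    gc σ c τ (tau x₀ (ph x₀ c τ) h) = gc σ c τ h := by
  obtain ⟨v, i, d⟩ := h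
  by_cases hv : v ≠ x₀
  · rw [tau_ne _ hv]
    by_cases hY : c true v = c false v + τ
    · have h1 : ph x₀ c τ ⟨v, hv⟩ = .Y := by simp [ph, hY]
      rw [h1]
      have h2 : gc σ c τ (v, true, true) = gc σ c τ (v, false, true) := by
        simp [gc, hY]
      have h3 : ∀ d, gc σ c τ (v, true, d) = gc σ c τ (v, false, d) := by
        intro d; cases d
        · rw [gc_in hc τ hv, gc_in hc τ hv, h2]
        · exact h2
      cases i
      · exact h3 d
      · exact (h3 d).symm
    · have h1 : ph x₀ c τ ⟨v, hv⟩ = .Z := by simp [ph, hY]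
      rw [h1]
      have h2 : gc σ c τ (v, true, true) = gc σ c τ (v, false, false) := by
        rw [gc_in hc τ hv]
        have := zmod2_ne.1 hY
        simp only [gc, if_true, Bool.false_eq_true, if_false]
        rw [this, add_zero]
      have h3 : gc σ c τ (v, true, false) = gc σ c τ (v, false, true) := by
        rw [gc_in hc τ hv, h2, gc_in hc τ hv, zmod2_add]
      cases i <;> cases d
      · exact h2
      · exact h3
      · exact h3.symm
      · exact h2.symm
  · push Not at hv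
    subst hv
    rw [tau_self]

lemma full_ph {c : Bool → V → ZMod 2} (hc : IsPar σ x₀ c) (τ : ZMod 2) :
    Full σ x₀ (ph x₀ c τ) := by
  intro v hv h
  have h1 := eq_of_mk_eq σ x₀ (ph x₀ c τ) (gc σ c τ) (gc_eps c τ) (gc_tau hc τ) h
  rw [gc_in hc τ hv] at h1
  have h2 : ∀ a : ZMod 2, a ≠ a + 1 := by decide
  exact h2 _ h1

/-- The half-edges at `x₀` are not on the curves of colour `1`. -/
lemma exists_avoiding {c : Bool → V → ZMod 2} (hc : IsPar σ x₀ c) {v : V} (hv : v ≠ x₀) :
    ∃ q : Mem σ x₀ (ph x₀ c 0), ∀ p, mk σ x₀ (ph x₀ c 0) (x₀, p) ≠ q := by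
  obtain ⟨d, hd⟩ : ∃ d, gc σ c 0 (v, true, d) = 1 := by
    have h1 := gc_in hc 0 hv true
    have h2 : ∀ a : ZMod 2, a = 1 ∨ a + 1 = 1 := by decide
    rcases h2 (gc σ c 0 (v, true, true)) with h | h
    · exact ⟨true, h⟩
    · exact ⟨false, by rw [h1]; exact h⟩
  refine ⟨mk σ x₀ _ (v, true, d), ?_⟩
  rintro ⟨i, e⟩ h
  have h1 := eq_of_mk_eq σ x₀ (ph x₀ c 0) (gc σ c 0) (gc_eps c 0) (gc_tau hc 0) h
  rw [hd, gc_zero hc] at h1
  cases i <;> simp at h1

/-- A chain of curves is one of the two phases. -/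
theorem eq_phase [Finite V] {c : Bool → V → ZMod 2} (hc : IsPar σ x₀ c)
    (htr : ∀ i x y, ∃ k : ℕ, (σ i ^ k) x = y) {T : {v // v ≠ x₀} → Tr}
    (hT : Full σ x₀ T) (hst : Straight σ x₀ T) {a : ℕ} {idx : Mem σ x₀ T → ℕ}
    (h1 : idx (E1 σ x₀ T) = 0) (h2 : idx (E2 σ x₀ T) = a)
    (h6 : ∀ v, v ≠ x₀ → idx (mk σ x₀ T (v, true, true)) = idx (mk σ x₀ T (v, true, false)) + 1 ∨
      idx (mk σ x₀ T (v, true, false)) = idx (mk σ x₀ T (v, true, true)) + 1) :
    T = ph x₀ c a ∧ ∀ h, (idx (mk σ x₀ T h) : ZMod 2) = gc σ c a h := by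
  set g : HE V → ZMod 2 := fun h => (idx (mk σ x₀ T h) : ZMod 2) with hg
  have hgeps : ∀ h, g (eps σ h) = g h := fun h => by simp only [hg]; rw [mk_eps]
  have hmem : ∀ v, v ≠ x₀ → g (v, true, true) = g (v, true, false) + 1 := by
    intro v hv
    simp only [hg]
    rcases h6 v hv with h | h
    · rw [h]; push_cast; ring
    · rw [h]; push_cast; rw [zmod2_add]
  have hmem2 : ∀ i v, v ≠ x₀ → g (v, i, false) = g (v, i, true) + 1 := by
    intro i v hv
    have h7 := hmem v hv
    cases i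
    · rcases hT.tau_false hv with h | h
      · have e1 : g (v, false, true) = g (v, true, true) := by simp only [hg]; rw [h]
        have e2 : g (v, false, false) = g (v, true, false) := by simp only [hg]; rw [h]
        rw [e1, e2, h7, zmod2_add]
      · have e1 : g (v, false, false) = g (v, true, true) := by
          simp only [hg]; rw [← h true]; rfl
        have e2 : g (v, false, true) = g (v, true, false) := by
          simp only [hg]; rw [← h false]; rfl
        rw [e1, e2, h7]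
    · rw [h7, zmod2_add]
  have hg0 : ∀ i d, g (x₀, i, d) = if i = true then 0 else (a : ZMod 2) := by
    intro i d
    simp only [hg]
    cases i
    · rw [hst.facts.2.2.2, h2]; simp
    · rw [hst.facts.2.2.1, h1]; simp
  have hgc : ∀ i v, g (v, i, true) = gc σ c a (v, i, true) := by
    intro i v
    obtain ⟨k, hk⟩ := htr i x₀ v
    rw [← hk]
    clear hk
    induction k with
    | zero =>
      rw [pow_zero, Equiv.Perm.one_apply, hg0, gc_zero hc]
    | succ k ih =>
      by_cases hv : (σ i ^ (k + 1)) x₀ = x₀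
      · rw [hv, hg0, gc_zero hc]
      · have e1 := hmem2 i _ hv
        have e2 := gc_in hc (a : ZMod 2) hv i
        have e3 : g ((σ i ^ (k + 1)) x₀, i, false) = g ((σ i ^ k) x₀, i, true) := by
          rw [← hgeps ((σ i ^ k) x₀, i, true), eps_out, pow_succ', Equiv.Perm.mul_apply]
        have e4 : gc σ c a ((σ i ^ (k + 1)) x₀, i, false) =
            gc σ c a ((σ i ^ k) x₀, i, true) := by
          rw [← gc_eps c (a : ZMod 2) ((σ i ^ k) x₀, i, true), eps_out, pow_succ',
            Equiv.Perm.mul_apply]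
        rw [e3, ih, ← e4, e2] at e1
        exact (add_right_cancel e1).symm
  have hall : ∀ h, g h = gc σ c a h := by
    rintro ⟨v, i, d⟩
    cases d
    · rw [← hgeps, ← gc_eps (σ := σ) c (a : ZMod 2) (v, i, false), eps_in]
      exact hgc _ _
    · exact hgc _ _
  refine ⟨?_, hall⟩
  funext ⟨v, hv⟩
  have h8 : g (v, true, true) = g (v, false, true) ↔ c true v = c false v + a := by
    rw [hall, hall]
    simp [gc]
  have h9 : g (v, true, true) ≠ g (v, true, false) := by
    rw [hmem v hv]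
    have : ∀ b : ZMod 2, b + 1 ≠ b := by decide
    exact this _
  rcases hTv : T ⟨v, hv⟩ with _ | _ | _
  · exact absurd hTv (hT.ne_X hv)
  · have e1 := mk_tau σ x₀ T (v, true, true)
    rw [tau_ne T hv, hTv] at e1
    have e2 : g (v, true, true) = g (v, false, true) := by
      simp only [hg]; rw [← e1]; rfl
    simp [ph, h8.1 e2]
  · have e1 := mk_tau σ x₀ T (v, true, false)
    rw [tau_ne T hv, hTv] at e1
    have e2 : g (v, true, false) = g (v, false, true) := by
      simp only [hg]; rw [← e1]; rfl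
    have e3 : ¬ (c true v = c false v + a) := by
      rw [← h8, ← e2]; exact h9
    simp [ph, e3]

end Gd16
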