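import Pool.Agent.K7.H16.Gd.Members
import Pool.Agent.K7.H16.Gd.Chain

/-!
# The curves form a chain
-/

set_option autoImplicit false
set_option linter.unusedSectionVars false

namespace Gd16

open Goddyn Contra2

variable {V : Type*} [DecidableEq V] {σ : Bool → Equiv.Perm V} {x₀ : V}
  {T : {v // v ≠ x₀} → Tr}

variable (σ x₀ T) in
/-- The curve through the first circuit at `x₀`. -/
def E1 : Mem σ x₀ T := mk σ x₀ T (x₀, true, true)

variable (σ x₀ T) in
/-- The curve through the second circuit at `x₀`. -/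
def E2 : Mem σ x₀ T := mk σ x₀ T (x₀, false, true)

variable (σ x₀ T) in
/-- The curves go straight ahead at `x₀`. -/
def Straight : Prop := mk σ x₀ T (x₀, true, false) = E1 σ x₀ T

lemma Straight.facts [Finite V] (h : Straight σ x₀ T) :
    mk σ x₀ T (x₀, false, false) = E2 σ x₀ T ∧ E1 σ x₀ T ≠ E2 σ x₀ T ∧
      (∀ d, mk σ x₀ T (x₀, true, d) = E1 σ x₀ T) ∧ ∀ d, mk σ x₀ T (x₀, false, d) = E2 σ x₀ T := by
  have h1 : E1 σ x₀ T ≠ E2 σ x₀ T := by
    intro h2
    obtain ⟨p', hp', hp⟩ := pair (σ := σ) (x₀ := x₀) (T := T) (true, true)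
    have h3 := (hp (true, false)).1 h
    have h4 := (hp (false, true)).1 h2.symm
    rcases h3 with h3 | h3
    · simp at h3
    · rcases h4 with h4 | h4
      · simp at h4
      · rw [← h4] at h3; simp at h3
  have h5 : mk σ x₀ T (x₀, false, false) = E2 σ x₀ T := by
    obtain ⟨p', hp', hp⟩ := pair (σ := σ) (x₀ := x₀) (T := T) (false, true)
    obtain ⟨i, d⟩ := p'
    have h6 := (hp (i, d)).2 (Or.inr rfl)
    cases i <;> cases d
    · exact h6
    · exact absurd rfl hp'
    · exfalso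
      apply h1
      have h7 : mk σ x₀ T (x₀, true, false) = E2 σ x₀ T := h6
      rw [← h7]; exact h.symm
    · exact absurd h6 h1
  refine ⟨h5, h1, ?_, ?_⟩
  · intro d; cases d
    · exact h
    · rfl
  · intro d; cases d
    · exact h5
    · rfl

/-- If the curves do not go straight ahead at `x₀` then all of them are alternating. -/
lemma alternating_of_not_straight [Finite V] {H : SimpleGraph V} {C : Bool → H.Subgraph}
    (hS : Sys C σ) (hT : Full σ x₀ T) (h : ¬ Straight σ x₀ T) (q : Mem σ x₀ T) :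
    IsAlternating (C true) (C false) (Sub hS q) := by
  apply sub_alternating hS hT q
  intro p r hp hr hpr hpr1
  obtain ⟨i, d⟩ := p
  obtain ⟨j, e⟩ := r
  have hij : i = j := hpr1
  subst hij
  have hde : d ≠ e := fun h => hpr (by rw [h])
  have h1 : mk σ x₀ T (x₀, i, true) = mk σ x₀ T (x₀, i, false) := by
    cases d <;> cases e
    · exact absurd rfl hde
    · exact hr.trans hp.symm
    · exact hp.trans hr.symm
    · exact absurd rfl hde
  cases i
  · obtain ⟨p', hp', hp⟩ := pair (σ := σ) (x₀ := x₀) (T := T) (true, true)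
    obtain ⟨k, c⟩ := p'
    have h6 := (hp (k, c)).2 (Or.inr rfl)
    cases k
    · have h7 : ∀ c', mk σ x₀ T (x₀, false, c') = mk σ x₀ T (x₀, true, true) := by
        intro c'
        rw [← h6]
        cases c <;> cases c'
        · rfl
        · exact h1
        · exact h1.symm
        · rfl
      have h8 := (hp (false, true)).1 (h7 true)
      have h9 := (hp (false, false)).1 (h7 false)
      simp only [Prod.mk.injEq, Bool.false_eq_true, false_and, true_and, false_or] at h8 h9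
      rw [← h8] at h9; simp at h9
    · cases c
      · exact h h6
      · exact hp' rfl
  · exact h h1.symm

variable (σ x₀ T) in
/-- Every curve avoiding `x₀` separates the two curves through `x₀`. -/
def Sep : Prop := ∀ q, (∀ p, mk σ x₀ T (x₀, p) ≠ q) →
  ∃ S S' : Set (Mem σ x₀ T), E1 σ x₀ T ∈ S ∧ E2 σ x₀ T ∈ S' ∧ (∀ j, j = q ∨ j ∈ S ∨ j ∈ S') ∧
    ∀ s ∈ S, ∀ s' ∈ S', ∀ v, v ≠ x₀ → (∃ p, mk σ x₀ T (v, p) = s) →
      (∃ p, mk σ x₀ T (v, p) = s') → False

variable (σ x₀ T) in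
/-- The intersection graph of the curves away from `x₀`. -/
def Gam : SimpleGraph (Mem σ x₀ T) where
  Adj j k := j ≠ k ∧ ∃ v, v ≠ x₀ ∧ (∃ p, mk σ x₀ T (v, p) = j) ∧ ∃ p, mk σ x₀ T (v, p) = k
  symm := ⟨fun _ _ ⟨h1, v, h2, h3, h4⟩ => ⟨h1.symm, v, h2, h4, h3⟩⟩
  loopless := ⟨fun _ h => h.1 rfl⟩

lemma gam_connected [Finite V] (htr : ∀ x y, ∃ k : ℕ, (σ true ^ k) x = y)
    (hne : ∀ i v, σ i v ≠ v) (hT : Full σ x₀ T) (hst : Straight σ x₀ T) :
    (Gam σ x₀ T).Connected := by
  have key : ∀ k : ℕ, (Gam σ x₀ T).Reachable (E1 σ x₀ T)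
      (mk σ x₀ T ((σ true ^ k) x₀, true, true)) := by
    intro k
    induction k with
    | zero => exact SimpleGraph.Reachable.refl _
    | succ k ih =>
      refine ih.trans ?_
      have h1 : mk σ x₀ T ((σ true ^ k) x₀, true, true) =
          mk σ x₀ T ((σ true ^ (k + 1)) x₀, true, false) := by
        rw [← mk_eps, eps_out, pow_succ', Equiv.Perm.mul_apply]
      rw [h1]
      by_cases hv : (σ true ^ (k + 1)) x₀ = x₀
      · rw [hv, hst.facts.2.2.1, hst.facts.2.2.1]
      · apply SimpleGraph.Adj.reachable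
        exact ⟨(hT _ hv).symm, _, hv, ⟨_, rfl⟩, ⟨_, rfl⟩⟩
  have key2 : ∀ v, (Gam σ x₀ T).Reachable (E1 σ x₀ T) (mk σ x₀ T (v, true, true)) := by
    intro v
    obtain ⟨k, hk⟩ := htr x₀ v
    rw [← hk]; exact key k
  have key3 : ∀ v p, v ≠ x₀ → (Gam σ x₀ T).Reachable (E1 σ x₀ T) (mk σ x₀ T (v, p)) := by
    intro v p hv
    by_cases h : mk σ x₀ T (v, p) = mk σ x₀ T (v, true, true)
    · rw [h]; exact key2 v
    · refine (key2 v).trans (SimpleGraph.Adj.reachable ?_)
      exact ⟨fun h' => h h'.symm, v, hv, ⟨_, rfl⟩, ⟨_, rfl⟩⟩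
  have key4 : ∀ q, (Gam σ x₀ T).Reachable (E1 σ x₀ T) q := by
    intro q
    obtain ⟨⟨v, i, d⟩, rfl⟩ := mk_surj σ x₀ T q
    by_cases hv : v = x₀
    · subst hv
      cases i
      · rw [hst.facts.2.2.2, ← hst.facts.2.2.2 true, ← mk_eps, eps_out]
        exact key3 _ _ (hne _ _)
      · rw [hst.facts.2.2.1]
    · exact key3 _ _ hv
  have : Nonempty (Mem σ x₀ T) := ⟨E1 σ x₀ T⟩
  exact ⟨fun a b => (key4 a).symm.trans (key4 b)⟩

/-- The curves form a chain. -/
theorem exists_chain [Finite V] (htr : ∀ x y, ∃ k : ℕ, (σ true ^ k) x = y)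
    (hne : ∀ i v, σ i v ≠ v) (hT : Full σ x₀ T) (hst : Straight σ x₀ T) (hsep : Sep σ x₀ T) :
    ∃ (a : ℕ) (idx : Mem σ x₀ T → ℕ), idx (E1 σ x₀ T) = 0 ∧ idx (E2 σ x₀ T) = a ∧
      (∀ i, idx i ≤ a) ∧ Function.Injective idx ∧ (∀ k ≤ a, ∃ i, idx i = k) ∧
      (∀ v, v ≠ x₀ → idx (mk σ x₀ T (v, true, true)) = idx (mk σ x₀ T (v, true, false)) + 1 ∨
        idx (mk σ x₀ T (v, true, false)) = idx (mk σ x₀ T (v, true, true)) + 1) ∧
      (∀ i j, idx j = idx i + 1 → ∃ v, v ≠ x₀ ∧ (∃ p, mk σ x₀ T (v, p) = i) ∧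
        ∃ p, mk σ x₀ T (v, p) = j) := by
  have hmem : ∀ q, q ≠ E1 σ x₀ T → q ≠ E2 σ x₀ T → ∀ p, mk σ x₀ T (x₀, p) ≠ q := by
    rintro q h1 h2 ⟨i, d⟩ h
    cases i
    · rw [hst.facts.2.2.2] at h; exact h2 h.symm
    · rw [hst.facts.2.2.1] at h; exact h1 h.symm
  obtain ⟨a, idx, h1, h2, h3, h4, h5, h6, h7⟩ := chain_of_separating (Gam σ x₀ T)
    (gam_connected htr hne hT hst) (E1 σ x₀ T) (E2 σ x₀ T) (by
      intro q hq1 hq2 w
      obtain ⟨S, S', hS1, hS2, hcov, hno⟩ := hsep q (hmem q hq1 hq2)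
      by_contra hw
      have key : ∀ u t, (w : (Gam σ x₀ T).Walk u t) → q ∉ w.support → u ∈ S → t ∈ S := by
        intro u t w
        induction w with
        | nil => intro _ h; exact h
        | @cons u v t huv w ih =>
          intro hq hu
          rw [SimpleGraph.Walk.support_cons, List.mem_cons, not_or] at hq
          apply ih hq.2
          rcases hcov v with h | h | h
          · exfalso
            apply hq.2
            rw [← h]
            exact w.start_mem_support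
          · exact h
          · exfalso
            obtain ⟨-, z, hz, hz1, hz2⟩ := huv
            exact hno u hu v h z hz hz1 hz2
      have h8 := key _ _ w hw hS1
      refine hno _ h8 _ hS2 (σ false x₀) (hne _ _) ?_ ?_ <;>
      · refine ⟨(false, false), ?_⟩
        rw [← hst.facts.2.2.2 true, ← mk_eps σ x₀ T (x₀, false, true), eps_out])
  refine ⟨a, idx, h1, h2, h3, h4, h5, ?_, ?_⟩
  · intro v hv
    exact h6 _ _ ⟨hT v hv, v, hv, ⟨_, rfl⟩, ⟨_, rfl⟩⟩
  · intro i j hij
    obtain ⟨-, v, hv, hv1, hv2⟩ := h7 i j hij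
    exact ⟨v, hv, hv1, hv2⟩

end Gd16
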